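import Mathlib
import Pool.Agent.MF.Frame

/-!
# MP_141f81, Section 7e, (E1): multiplication by a letter

`R` exact rows, `A : V → V` additive on `L`, `A v ∈ cl {a, v}` and `v ∈ cl {a, A v}` for `v ∈ L`.  The map
`MM R L a A x` sends the letter `(v, ρ v)` of a row `ρ` with `ρ a = x`, `v ∈ L`, to the letter `(A v, ρ (A v))`.
-/

set_option autoImplicit false
set_option linter.unusedSectionVars false

namespace Pool.Agent.helper20.MF

open Finset Pool.Agent.MF
open Pool.Agent.helper35.MF (Ball ball_add)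

/-! ### balls -/

theorem Ball_sub {G : Type*} [AddCommGroup G] {T T' : Set G} (h : T ⊆ T') (r : ℕ) :
    Ball T r ⊆ Ball T' r := by
  rintro g ⟨l, h1, h2, h3⟩
  exact ⟨l, h1, fun x hx => h (h2 x hx), h3⟩

theorem Ball_map {G H : Type*} [AddCommGroup G] [AddCommGroup H] {T : Set G} {T' : Set H} (f : G →+ H)
    (h : ∀ t ∈ T, f t ∈ T') {r : ℕ} {g : G} (hg : g ∈ Ball T r) : f g ∈ Ball T' r := by
  obtain ⟨l, h1, h2, rfl⟩ := hg
  refine ⟨l.map f, by rwa [List.length_map], fun x hx => ?_, by rw [map_list_sum]⟩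
  obtain ⟨y, hy, rfl⟩ := List.mem_map.mp hx
  exact h y (h2 y hy)

/-- generators go to the ball of radius `k` -/
theorem Ball_mapk {G H : Type*} [AddCommGroup G] [AddCommGroup H] {T : Set G} {T' : Set H} (f : G →+ H)
    {k : ℕ} (h : ∀ t ∈ T, f t ∈ Ball T' k) {r : ℕ} {g : G} (hg : g ∈ Ball T r) :
    f g ∈ Ball T' (k * r) := by
  obtain ⟨l, h1, h2, rfl⟩ := hg
  have key : ∀ l : List G, (∀ x ∈ l, x ∈ T) → f l.sum ∈ Ball T' (k * l.length) := by
    intro l
    induction l with
    | nil => intro _; simpa using Ball.zero T' 0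
    | cons x l ih =>
      intro hl
      rw [List.sum_cons, map_add, List.length_cons, Nat.mul_succ, add_comm (k * l.length) k]
      exact ball_add (h x (hl x List.mem_cons_self)) (ih fun y hy => hl y (List.mem_cons_of_mem x hy))
  exact Ball.mono (Nat.mul_le_mul_left k h1) (key l h2)

variable {V : Type} [AddCommGroup V] [Fintype V] [DecidableEq V] {M : Mat V} {n : ℕ}
  {R : Finset (V → Fin n)} {L τ : Finset V} {a : V} {A : V → V}

/-! ### matroid facts -/

theorem rk_union_le (M : Mat V) (P Q : Finset V) : M.rk (P ∪ Q) ≤ M.rk P + M.rk Q := by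
  have := M.rk_submod P Q
  omega

theorem rk_insert_of_cl {M : Mat V} {S T : Finset V} {v : V} (h : M.InCl S v) (hST : S ⊆ T) :
    M.rk (insert v T) = M.rk T := by
  have h1 := M.rk_submod (insert v S) T
  have h2 : insert v S ∪ T = insert v T := by
    rw [Finset.insert_union, Finset.union_eq_right.2 hST]
  have h3 : M.rk S ≤ M.rk (insert v S ∩ T) :=
    M.rk_mono (Finset.subset_inter (Finset.subset_insert _ _) hST)
  have h4 := M.rk_mono (Finset.subset_insert v T)
  have h5 : M.rk (insert v S) = M.rk S := h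
  rw [h2] at h1
  omega

theorem incl_mono {M : Mat V} {S T : Finset V} {v : V} (h : M.InCl S v) (hST : S ⊆ T) :
    M.InCl T v := rk_insert_of_cl h hST

theorem incl_mem {M : Mat V} {S : Finset V} {v : V} (h : v ∈ S) : M.InCl S v := by
  unfold Mat.InCl
  rw [Finset.insert_eq_of_mem h]

/-- independence over `τ` goes to independence of the images -/
theorem ind_map {u v u' v' : V} (h : M.Ind τ u v) (hu : M.InCl (insert u' τ) u)
    (hv : M.InCl (insert v' τ) v) : M.Ind ∅ u' v' := by
  have h1 : M.rk (insert u (insert v (insert u' (insert v' τ)))) =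
      M.rk (insert u' (insert v' τ)) := by
    have e1 : M.rk (insert v (insert u' (insert v' τ))) = M.rk (insert u' (insert v' τ)) :=
      rk_insert_of_cl hv (by
        intro x hx
        rw [Finset.mem_insert] at hx
        rw [Finset.mem_insert, Finset.mem_insert]
        tauto)
    have e2 : M.rk (insert u (insert v (insert u' (insert v' τ)))) =
        M.rk (insert v (insert u' (insert v' τ))) :=
      rk_insert_of_cl hu (by
        intro x hx
        rw [Finset.mem_insert] at hx
        rw [Finset.mem_insert, Finset.mem_insert, Finset.mem_insert]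
        tauto)
    rw [e2, e1]
  have h2 : M.rk (insert u (insert v τ)) ≤ M.rk (insert u (insert v (insert u' (insert v' τ)))) :=
    M.rk_mono (by
      intro x hx
      rw [Finset.mem_insert, Finset.mem_insert] at hx
      rw [Finset.mem_insert, Finset.mem_insert, Finset.mem_insert, Finset.mem_insert]
      tauto)
  have h3 : M.rk (insert u' (insert v' τ)) ≤ M.rk τ + M.rk {u', v'} := by
    have e : insert u' (insert v' τ) = τ ∪ {u', v'} := by
      ext x
      rw [Finset.mem_insert, Finset.mem_insert, Finset.mem_union, Finset.mem_insert,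
        Finset.mem_singleton]
      tauto
    rw [e]
    exact rk_union_le M _ _
  have h4 : M.rk (insert u' (insert v' ∅)) ≤ M.rk ∅ + 2 := by
    have e1 := M.rk_insert_le u' (insert v' ∅)
    have e2 := M.rk_insert_le v' ∅
    omega
  unfold Mat.Ind at h ⊢
  have e : ({u', v'} : Finset V) = insert u' (insert v' ∅) := rfl
  rw [e] at h3
  have h5 := M.rk_empty
  omega

theorem ind_of_not_incl {M : Mat V} {S : Finset V} {v : V} (h : ¬ M.InCl S v) :
    M.rk (insert v S) = M.rk S + 1 := by
  have h1 := M.rk_insert_le v S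
  have h2 := M.rk_mono (Finset.subset_insert v S)
  unfold Mat.InCl at h
  omega

/-- `u + w ∈ cl S`, `u ∈ cl S` imply `w ∈ cl S` -/
theorem incl_add {M : Mat V} {S : Finset V} {u v : V} (hu : M.InCl S u) (hv : M.InCl S v) :
    M.InCl S (u + v) := by
  have h1 : M.InCl {u, v} (u + v) := by
    unfold Mat.InCl
    have e : insert (u + v) ({u, v} : Finset V) = {u, v, u + v} := by
      ext x
      simp only [Finset.mem_insert, Finset.mem_singleton]
      tauto
    rw [e, M.rk_add]
  have h2 : M.rk (insert (u + v) (insert u (insert v S))) = M.rk (insert u (insert v S)) :=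
    rk_insert_of_cl h1 (by
      intro x hx
      rw [Finset.mem_insert, Finset.mem_singleton] at hx
      rw [Finset.mem_insert, Finset.mem_insert]
      tauto)
  have h3 : M.rk (insert u (insert v S)) = M.rk (insert v S) :=
    rk_insert_of_cl hu (Finset.subset_insert _ _)
  have h4 : M.rk (insert v S) = M.rk S := hv
  have h5 : M.rk (insert (u + v) S) ≤ M.rk (insert (u + v) (insert u (insert v S))) :=
    M.rk_mono (Finset.insert_subset_insert _ ((Finset.subset_insert _ _).trans
      (Finset.subset_insert _ _)))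
  have h6 := M.rk_mono (Finset.subset_insert (u + v) S)
  unfold Mat.InCl
  omega

theorem sum_cancel (M : Mat V) (u w : V) : u + (u + w) = w := by
  rw [← add_assoc, M.two u, zero_add]

theorem incl_add_right {M : Mat V} {S : Finset V} {u w : V} (hu : M.InCl S u) (huw : M.InCl S (u + w)) :
    M.InCl S w := by
  have := incl_add hu huw
  rwa [sum_cancel M] at this

/-- independent pairs -/
theorem ind_pair {M : Mat V} {u v : V} (hu : u ≠ 0) (hv : ¬ M.InCl {u} v) : M.Ind ∅ u v := by
  have h1 := M.rk_single u hu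
  have h2 := ind_of_not_incl hv
  unfold Mat.Ind
  rw [M.rk_empty]
  have e : insert u (insert v ∅) = insert v ({u} : Finset V) := by
    ext x
    simp only [Finset.mem_insert, Finset.mem_singleton, Finset.notMem_empty, or_false]
    tauto
  rw [e]
  omega

/-- a dependent line is a sum of at most three independent lines -/
theorem lin_ball (M : Mat V) {S : Finset (V → Fin n)} {ρ : V → Fin n} (hρ : ρ ∈ S) {u v w : V}
    (hu : u ≠ 0) (hv : v ≠ 0) (huv : u ≠ v) (hw : ¬ M.InCl {u, v} w) :
    lin ρ u v ∈ Ball (Lines M ∅ Finset.univ S) 3 := by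
  have hsub : ({u} : Finset V) ⊆ {u, v} := by intro x; simp; tauto
  have hsub2 : ({v} : Finset V) ⊆ {u, v} := by intro x; simp; tauto
  have huv0 : u + v ≠ 0 := by
    intro h
    apply huv
    have h1 := sum_cancel M u v
    rw [h, add_zero] at h1
    exact h1
  have i1 : M.Ind ∅ u (v + w) := ind_pair hu fun h => hw (incl_add_right (M := M)
    (incl_mem (by simp)) (incl_mono h hsub))
  have i2 : M.Ind ∅ v w := ind_pair hv fun h => hw (incl_mono h hsub2)
  have i3 : M.Ind ∅ (u + v) w := ind_pair huv0 fun h => by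
    apply hw
    have h1 : M.rk (insert w (insert (u + v) ({u, v} : Finset V))) =
        M.rk (insert (u + v) ({u, v} : Finset V)) := rk_insert_of_cl h (by
      intro x; simp only [Finset.mem_singleton, Finset.mem_insert]; tauto)
    have h2 : M.InCl {u, v} (u + v) := incl_add (incl_mem (by simp)) (incl_mem (by simp))
    have h3 : M.rk (insert (u + v) ({u, v} : Finset V)) = M.rk {u, v} := h2
    have h4 : M.rk (insert w ({u, v} : Finset V)) ≤
        M.rk (insert w (insert (u + v) ({u, v} : Finset V))) :=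
      M.rk_mono (Finset.insert_subset_insert _ (Finset.subset_insert _ _))
    have h5 := M.rk_mono (Finset.subset_insert w ({u, v} : Finset V))
    unfold Mat.InCl
    omega
  have m1 : lin ρ u (v + w) ∈ Lines M ∅ Finset.univ S :=
    ⟨ρ, hρ, u, mem_univ _, v + w, mem_univ _, mem_univ _, i1, rfl⟩
  have m2 : lin ρ v w ∈ Lines M ∅ Finset.univ S :=
    ⟨ρ, hρ, v, mem_univ _, w, mem_univ _, mem_univ _, i2, rfl⟩
  have m3 : lin ρ (u + v) w ∈ Lines M ∅ Finset.univ S :=
    ⟨ρ, hρ, u + v, mem_univ _, w, mem_univ _, mem_univ _, i3, rfl⟩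
  refine ⟨[lin ρ u (v + w), lin ρ v w, lin ρ (u + v) w], by simp, ?_, ?_⟩
  · intro x hx
    simp only [List.mem_cons, List.not_mem_nil, or_false] at hx
    rcases hx with rfl | rfl | rfl
    · exact m1
    · exact m2
    · exact m3
  · have two : ∀ g : G V n, g + g = 0 := fun g => by
      ext x
      rw [Finsupp.add_apply, Finsupp.zero_apply]
      exact CharTwo.add_self_eq_zero _
    simp only [List.sum_cons, List.sum_nil, add_zero, lin]
    rw [show u + v + w = u + (v + w) from add_assoc _ _ _]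
    generalize (lt u (ρ u) : G V n) = p1
    generalize (lt v (ρ v) : G V n) = p2
    generalize (lt w (ρ w) : G V n) = p3
    generalize (lt (v + w) (ρ (v + w)) : G V n) = p4
    generalize (lt (u + v) (ρ (u + v)) : G V n) = p5
    generalize (lt (u + (v + w)) (ρ (u + (v + w))) : G V n) = p6
    calc p1 + p4 + p6 + (p2 + p3 + p4 + (p5 + p3 + p6))
        = p1 + p2 + p5 + ((p3 + p3) + (p4 + p4) + (p6 + p6)) := by abel
      _ = p1 + p2 + p5 := by rw [two p3, two p4, two p6]; simp

/-! ### the map -/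

open Classical in
/-- the image of a letter -/
noncomputable def val (R : Finset (V → Fin n)) (L : Finset V) (a : V) (A : V → V) (x : Fin n)
    (l : V × Fin n) : G V n :=
  if h : ∃ ρ ∈ R, ρ a = x ∧ l.1 ∈ L ∧ ρ l.1 = l.2 then lt (A l.1) (h.choose (A l.1)) else 0

/-- the multiplication by the letter `(a, x)` -/
noncomputable def MM (R : Finset (V → Fin n)) (L : Finset V) (a : V) (A : V → V) (x : Fin n) :
    G V n →+ G V n :=
  (Finsupp.linearCombination (ZMod 2) (val R L a A x)).toAddMonoidHom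

/-- `M_x` on a letter -/
theorem MM_lt (hE : Exact M R) (hA : ∀ v ∈ L, M.InCl {a, v} (A v)) {v : V} (hv : v ∈ L)
    {ρ : V → Fin n} (hρ : ρ ∈ R) {x : Fin n} (hx : ρ a = x) :
    MM R L a A x (lt v (ρ v)) = lt (A v) (ρ (A v)) := by
  have hex : ∃ ρ' ∈ R, ρ' a = x ∧ (v, ρ v).1 ∈ L ∧ ρ' (v, ρ v).1 = (v, ρ v).2 := ⟨ρ, hρ, hx, hv, rfl⟩
  have h0 : MM R L a A x (lt v (ρ v)) = val R L a A x (v, ρ v) := by
    show Finsupp.linearCombination (ZMod 2) (val R L a A x) (Finsupp.single (v, ρ v) 1) = _
    rw [Finsupp.linearCombination_single, one_smul]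
  rw [h0, val, dif_pos hex]
  obtain ⟨h1, h2, -, h3⟩ := hex.choose_spec
  have h4 : hex.choose (A v) = ρ (A v) := by
    refine hE {a, v} (A v) (hA v hv) _ h1 _ hρ ?_
    intro u hu
    rw [Finset.mem_insert, Finset.mem_singleton] at hu
    rcases hu with rfl | rfl
    · exact h2.trans hx.symm
    · exact h3
  show lt (A v) (hex.choose (A v)) = _
  rw [h4]

/-- `M_x` on a line -/
theorem MM_lin (hE : Exact M R) (hA : ∀ v ∈ L, M.InCl {a, v} (A v))
    (hadd : ∀ u ∈ L, ∀ v ∈ L, A (u + v) = A u + A v) {u v : V} (hu : u ∈ L) (hv : v ∈ L)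
    (huv : u + v ∈ L) {ρ : V → Fin n} (hρ : ρ ∈ R) {x : Fin n} (hx : ρ a = x) :
    MM R L a A x (lin ρ u v) = lin ρ (A u) (A v) := by
  unfold lin
  rw [map_add, map_add, MM_lt hE hA hu hρ hx, MM_lt hE hA hv hρ hx, MM_lt hE hA huv hρ hx,
    hadd u hu v hv]

theorem mem_sub {τ : Finset V} {η ρ : V → Fin n} :
    ρ ∈ sub R τ η ↔ ρ ∈ R ∧ ∀ v ∈ τ, η v = ρ v := by
  unfold sub Agree
  rw [Finset.mem_filter]

/-- `M_x` maps the lines of a sub-structure `τ ∋ a` to lines -/
theorem MM_lines (hE : Exact M R) (hA : ∀ v ∈ L, M.InCl {a, v} (A v))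
    (hA' : ∀ v ∈ L, M.InCl {a, A v} v) (hadd : ∀ u ∈ L, ∀ v ∈ L, A (u + v) = A u + A v)
    (haτ : a ∈ τ) {η : V → Fin n} {g : G V n} (hg : g ∈ Lines M τ L (sub R τ η)) :
    MM R L a A (η a) g ∈ Lines M ∅ Finset.univ (sub R τ η) := by
  obtain ⟨ρ, hρ, u, hu, v, hv, huv, hi, rfl⟩ := hg
  have hρ' := mem_sub.1 hρ
  have hsub : ∀ w : V, ({a, w} : Finset V) ⊆ insert w τ := by
    intro w x hx
    rw [Finset.mem_insert, Finset.mem_singleton] at hx
    rw [Finset.mem_insert]
    rcases hx with rfl | rfl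
    · exact Or.inr haτ
    · exact Or.inl rfl
  refine ⟨ρ, hρ, A u, mem_univ _, A v, mem_univ _, mem_univ _, ?_, ?_⟩
  · exact ind_map hi (incl_mono (hA' u hu) (hsub _)) (incl_mono (hA' v hv) (hsub _))
  · exact MM_lin hE hA hadd hu hv huv hρ'.1 (hρ'.2 a haτ).symm

theorem Lines_mono {S S' : Finset (V → Fin n)} {K K' : Finset V} (hS : S ⊆ S') (hK : K ⊆ K') :
    Lines M τ K S ⊆ Lines M τ K' S' := by
  rintro g ⟨ρ, hρ, u, hu, v, hv, huv, hi, rfl⟩
  exact ⟨ρ, hS hρ, u, hK hu, v, hK hv, hK huv, hi, rfl⟩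

theorem MM_ball (hE : Exact M R) (hA : ∀ v ∈ L, M.InCl {a, v} (A v))
    (hA' : ∀ v ∈ L, M.InCl {a, A v} v) (hadd : ∀ u ∈ L, ∀ v ∈ L, A (u + v) = A u + A v)
    (haτ : a ∈ τ) {η : V → Fin n} {r : ℕ} {g : G V n} (hg : g ∈ Ball (Lines M τ L (sub R τ η)) r) :
    MM R L a A (η a) g ∈ Ball (Lines M ∅ Finset.univ R) r :=
  Ball_map _ (fun _ ht => Lines_mono (Finset.filter_subset _ _) subset_rfl
    (MM_lines hE hA hA' hadd haτ ht)) hg

/-! ### words -/

/-- words of at most `k` letters of rows of `S` in the roles of `K` -/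
def Words (S : Finset (V → Fin n)) (K : Finset V) (k : ℕ) : Set (G V n) :=
  {g | ∃ l : List (G V n), l.length ≤ k ∧ (∀ w ∈ l, ∃ ρ ∈ S, ∃ v ∈ K, w = lt v (ρ v)) ∧ l.sum = g}

/-- `T~`: words of at most `k` letters and area at most `r` -/
def Short (M : Mat V) (τ K : Finset V) (S : Finset (V → Fin n)) (k r : ℕ) : Set (G V n) :=
  Words S K k ∩ Ball (Lines M τ K S) r

theorem MM_words (hE : Exact M R) (hA : ∀ v ∈ L, M.InCl {a, v} (A v)) (haτ : a ∈ τ)
    {η : V → Fin n} {k : ℕ} {g : G V n} (hg : g ∈ Words (sub R τ η) L k) :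
    MM R L a A (η a) g ∈ Words (sub R τ η) Finset.univ k := by
  obtain ⟨l, h1, h2, rfl⟩ := hg
  refine ⟨l.map (MM R L a A (η a)), by rwa [List.length_map], fun w hw => ?_, by rw [map_list_sum]⟩
  obtain ⟨y, hy, rfl⟩ := List.mem_map.mp hw
  obtain ⟨ρ, hρ, v, hv, rfl⟩ := h2 y hy
  have hρ' := mem_sub.1 hρ
  exact ⟨ρ, hρ, A v, mem_univ _, MM_lt hE hA hv hρ'.1 (hρ'.2 a haτ).symm⟩

theorem MM_short (hE : Exact M R) (hA : ∀ v ∈ L, M.InCl {a, v} (A v))
    (hA' : ∀ v ∈ L, M.InCl {a, A v} v) (hadd : ∀ u ∈ L, ∀ v ∈ L, A (u + v) = A u + A v)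
    (haτ : a ∈ τ) {η : V → Fin n} {k r : ℕ} {g : G V n}
    (hg : g ∈ Short M τ L (sub R τ η) k r) :
    MM R L a A (η a) g ∈ Short M ∅ Finset.univ (sub R τ η) k r :=
  ⟨MM_words hE hA haτ hg.1, Ball_map _ (fun _ ht => MM_lines hE hA hA' hadd haτ ht) hg.2⟩

theorem Words_mono {S S' : Finset (V → Fin n)} {K K' : Finset V} {k k' : ℕ} (hS : S ⊆ S')
    (hK : K ⊆ K') (hk : k ≤ k') : Words S K k ⊆ Words S' K' k' := by
  rintro g ⟨l, h1, h2, h3⟩
  refine ⟨l, h1.trans hk, fun w hw => ?_, h3⟩
  obtain ⟨ρ, hρ, v, hv, rfl⟩ := h2 w hw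
  exact ⟨ρ, hS hρ, v, hK hv, rfl⟩

theorem Short_mono {S S' : Finset (V → Fin n)} {K K' : Finset V} {k r : ℕ} (hS : S ⊆ S')
    (hK : K ⊆ K') : Short M τ K S k r ⊆ Short M τ K' S' k r := fun _ hg =>
  ⟨Words_mono hS hK le_rfl hg.1, Ball_sub (Lines_mono hS hK) r hg.2⟩

theorem MM_ball_short (hE : Exact M R) (hA : ∀ v ∈ L, M.InCl {a, v} (A v))
    (hA' : ∀ v ∈ L, M.InCl {a, A v} v) (hadd : ∀ u ∈ L, ∀ v ∈ L, A (u + v) = A u + A v)
    (haτ : a ∈ τ) {η : V → Fin n} {k r s : ℕ} {g : G V n}
    (hg : g ∈ Ball (Short M τ L (sub R τ η) k r) s) :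
    MM R L a A (η a) g ∈ Ball (Short M ∅ Finset.univ R k r) s :=
  Ball_map _ (fun _ ht => Short_mono (Finset.filter_subset _ _) subset_rfl
    (MM_short hE hA hA' hadd haτ ht)) hg

/-! ### the three products of a letter along a line -/

/-- `M_x p + M_y p + M_u p` is the line `(A v, B v)` of a common row -/
theorem MM_sum (hE : Exact M R) {b : V} {B : V → V} (hA : ∀ v ∈ L, M.InCl {a, v} (A v))
    (hB : ∀ v ∈ L, M.InCl {b, v} (B v)) (hC : ∀ v ∈ L, M.InCl {a + b, v} (A v + B v))
    {v : V} (hv : v ∈ L) {ρ : V → Fin n} (hρ : ρ ∈ R) {x y u : Fin n} (hx : ρ a = x)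
    (hy : ρ b = y) (hu : ρ (a + b) = u) :
    MM R L a A x (lt v (ρ v)) + MM R L b B y (lt v (ρ v)) +
      MM R L (a + b) (fun w => A w + B w) u (lt v (ρ v)) = lin ρ (A v) (B v) := by
  rw [MM_lt hE hA hv hρ hx, MM_lt hE hB hv hρ hy, MM_lt (A := fun w => A w + B w) hE hC hv hρ hu]
  rfl

/-- the line `(A v, B v)` has area at most three -/
theorem AB_ball {b : V} {B : V → V} (hA' : ∀ v ∈ L, M.InCl {a, A v} v)
    (hB' : ∀ v ∈ L, M.InCl {b, B v} v) (hC' : ∀ v ∈ L, M.InCl {a + b, A v + B v} v)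
    {v : V} (hv : v ∈ L) (hv' : ¬ M.InCl {a, b} v) {ρ : V → Fin n} {S : Finset (V → Fin n)}
    (hρ : ρ ∈ S) (hrk : 3 ≤ M.r) : lin ρ (A v) (B v) ∈ Ball (Lines M ∅ Finset.univ S) 3 := by
  have hA0 : A v ≠ 0 := by
    intro h
    apply hv'
    have h1 := hA' v hv
    rw [h] at h1
    have h2 : M.InCl {a, b} 0 := by
      unfold Mat.InCl
      have e1 := M.rk_submod {0} {a, b}
      have e2 := M.rk_zero
      have e3 := M.rk_mono (Finset.subset_insert 0 ({a, b} : Finset V))
      have e4 : ({0} : Finset V) ∪ {a, b} = insert 0 {a, b} := rfl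
      rw [e4] at e1
      omega
    have h3 : M.rk (insert v (insert 0 ({a, b} : Finset V))) = M.rk (insert 0 ({a, b} : Finset V)) :=
      rk_insert_of_cl h1 (by
        intro x; simp only [Finset.mem_insert, Finset.mem_singleton]; tauto)
    have h4 : M.rk (insert 0 ({a, b} : Finset V)) = M.rk {a, b} := h2
    have h5 : M.rk (insert v ({a, b} : Finset V)) ≤
        M.rk (insert v (insert 0 ({a, b} : Finset V))) :=
      M.rk_mono (Finset.insert_subset_insert _ (Finset.subset_insert _ _))
    have h6 := M.rk_mono (Finset.subset_insert v ({a, b} : Finset V))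
    unfold Mat.InCl
    omega
  have hB0 : B v ≠ 0 := by
    intro h
    apply hv'
    have h1 := hB' v hv
    rw [h] at h1
    have h2 : M.InCl {a, b} 0 := by
      unfold Mat.InCl
      have e1 := M.rk_submod {0} {a, b}
      have e2 := M.rk_zero
      have e3 := M.rk_mono (Finset.subset_insert 0 ({a, b} : Finset V))
      have e4 : ({0} : Finset V) ∪ {a, b} = insert 0 {a, b} := rfl
      rw [e4] at e1
      omega
    have h3 : M.rk (insert v (insert 0 ({a, b} : Finset V))) = M.rk (insert 0 ({a, b} : Finset V)) :=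
      rk_insert_of_cl h1 (by
        intro x; simp only [Finset.mem_insert, Finset.mem_singleton]; tauto)
    have h4 : M.rk (insert 0 ({a, b} : Finset V)) = M.rk {a, b} := h2
    have h5 : M.rk (insert v ({a, b} : Finset V)) ≤
        M.rk (insert v (insert 0 ({a, b} : Finset V))) :=
      M.rk_mono (Finset.insert_subset_insert _ (Finset.subset_insert _ _))
    have h6 := M.rk_mono (Finset.subset_insert v ({a, b} : Finset V))
    unfold Mat.InCl
    omega
  have hAB : A v ≠ B v := by
    intro h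
    apply hv'
    have h1 := hC' v hv
    rw [h, M.two] at h1
    have h2 : M.InCl {a, b} 0 := by
      unfold Mat.InCl
      have e1 := M.rk_submod {0} {a, b}
      have e2 := M.rk_zero
      have e3 := M.rk_mono (Finset.subset_insert 0 ({a, b} : Finset V))
      have e4 : ({0} : Finset V) ∪ {a, b} = insert 0 {a, b} := rfl
      rw [e4] at e1
      omega
    have h3 : M.InCl {a, b} (a + b) := incl_add (incl_mem (by simp)) (incl_mem (by simp))
    have h4 : M.rk (insert v (insert 0 (insert (a + b) ({a, b} : Finset V)))) =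
        M.rk (insert 0 (insert (a + b) ({a, b} : Finset V))) :=
      rk_insert_of_cl h1 (by
        intro x; simp only [Finset.mem_insert, Finset.mem_singleton]; tauto)
    have h5 : M.rk (insert 0 (insert (a + b) ({a, b} : Finset V))) =
        M.rk (insert (a + b) ({a, b} : Finset V)) :=
      rk_insert_of_cl h2 (Finset.subset_insert _ _)
    have h6 : M.rk (insert (a + b) ({a, b} : Finset V)) = M.rk {a, b} := h3
    have h7 : M.rk (insert v ({a, b} : Finset V)) ≤
        M.rk (insert v (insert 0 (insert (a + b) ({a, b} : Finset V)))) :=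
      M.rk_mono (Finset.insert_subset_insert _ ((Finset.subset_insert _ _).trans
        (Finset.subset_insert _ _)))
    have h8 := M.rk_mono (Finset.subset_insert v ({a, b} : Finset V))
    unfold Mat.InCl
    omega
  obtain ⟨w, hw⟩ : ∃ w, ¬ M.InCl {A v, B v} w := by
    by_contra hcon
    push Not at hcon
    have h1 : ∀ P : Finset V, M.rk (P ∪ {A v, B v}) = M.rk {A v, B v} := by
      intro P
      induction P using Finset.induction_on with
      | empty => rw [Finset.empty_union]
      | insert p P hp ih =>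
        rw [Finset.insert_union, rk_insert_of_cl (hcon p) Finset.subset_union_right, ih]
    have h2 := h1 Finset.univ
    rw [Finset.union_eq_left.2 (Finset.subset_univ _)] at h2
    have h3 : M.rk ({A v, B v} : Finset V) ≤ 2 := by
      have e1 := M.rk_insert_le (A v) {B v}
      have e2 := M.rk_insert_le (B v) ∅
      have e3 := M.rk_empty
      have e4 : (insert (B v) ∅ : Finset V) = {B v} := rfl
      rw [e4] at e2
      omega
    unfold Mat.r at hrk
    omega
  exact lin_ball M hρ hA0 hB0 hAB hw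

end Pool.Agent.helper20.MF
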