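import Mathlib
import Pool.Agent.MF.Frame2
import Pool.Agent.helper20.MF.Mul

/-!
# MP_141f81, Section 9: from `EMOut` and `StmtSub` to correspondences
-/

set_option autoImplicit false
set_option linter.unusedSectionVars false

namespace Pool.Agent.helper20.MF

open Finset Pool.Agent.MF

/-! ### counting rows -/

section Card

variable {V : Type} [AddCommGroup V] [Fintype V] [DecidableEq V] {M : Mat V} {n : ℕ}
  {R : Finset (V → Fin n)}

theorem rk_le_r (M : Mat V) (S : Finset V) : M.rk S ≤ M.r := M.rk_mono (subset_univ _)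

/-- a set is completed to full rank by `r - rk` elements -/
theorem exists_compl (M : Mat V) : ∀ (k : ℕ) (S : Finset V), M.r ≤ M.rk S + k →
    ∃ B : Finset V, B.card ≤ k ∧ M.rk (S ∪ B) = M.r := by
  intro k
  induction k with
  | zero =>
    intro S hS
    refine ⟨∅, by simp, ?_⟩
    rw [union_empty]
    have := rk_le_r M S
    omega
  | succ k ih =>
    intro S hS
    by_cases h : ∀ v, M.InCl S v
    · have h1 : ∀ P : Finset V, M.rk (P ∪ S) = M.rk S := by
        intro P
        induction P using Finset.induction_on with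
        | empty => rw [Finset.empty_union]
        | insert p P hp ih =>
          rw [Finset.insert_union, rk_insert_of_cl (h p) Finset.subset_union_right, ih]
      refine ⟨∅, by simp, ?_⟩
      rw [union_empty, Mat.r, ← h1 univ, Finset.union_eq_left.2 (Finset.subset_univ _)]
    · push Not at h
      obtain ⟨v, hv⟩ := h
      have h1 := ind_of_not_incl hv
      obtain ⟨B, hB, hB'⟩ := ih (insert v S) (by omega)
      refine ⟨insert v B, (card_insert_le _ _).trans (by omega), ?_⟩
      rw [union_insert, ← insert_union]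
      exact hB'

theorem card_sub_le (hE : Exact M R) (τ : Finset V) (η : V → Fin n) :
    (sub R τ η).card ≤ n ^ (M.r - M.rk τ) := by
  classical
  rcases Nat.eq_zero_or_pos n with hn | hn
  · subst hn
    have h0 : IsEmpty (V → Fin 0) := ⟨fun f => (f 0).elim0⟩
    rw [Finset.eq_empty_of_isEmpty (sub R τ η)]
    simp
  obtain ⟨B, hB, hB'⟩ := exists_compl M (M.r - M.rk τ) τ (by have := rk_le_r M τ; omega)
  have hcl : ∀ v, M.InCl (τ ∪ B) v := by
    intro v
    have h1 := rk_le_r M (insert v (τ ∪ B))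
    have h2 := M.rk_mono (subset_insert v (τ ∪ B))
    unfold Mat.InCl
    omega
  have hinj : Set.InjOn (fun ρ : V → Fin n => fun b : B => ρ b) (sub R τ η : Set (V → Fin n)) := by
    intro ρ hρ σ hσ he
    rw [mem_coe, mem_sub] at hρ hσ
    funext v
    refine hE _ v (hcl v) ρ hρ.1 σ hσ.1 ?_
    intro u hu
    rw [mem_union] at hu
    rcases hu with hu | hu
    · rw [← hρ.2 u hu, ← hσ.2 u hu]
    · exact congrFun he ⟨u, hu⟩
  have h1 : (sub R τ η).card ≤ (univ : Finset (B → Fin n)).card :=
    card_le_card_of_injOn _ (fun _ _ => mem_univ _) hinj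
  rw [card_univ, Fintype.card_fun, Fintype.card_fin, Fintype.card_coe] at h1
  exact h1.trans (Nat.pow_le_pow_right hn hB)

theorem exact_mono {S : Finset (V → Fin n)} (hE : Exact M R) (h : S ⊆ R) : Exact M S :=
  fun A v hv ρ hρ σ hσ => hE A v hv ρ (h hρ) σ (h hσ)

theorem mem_sub_self {S : Finset (V → Fin n)} {η : V → Fin n} (hη : η ∈ S) (τ : Finset V) :
    η ∈ sub S τ η := mem_sub.2 ⟨hη, fun _ _ => rfl⟩

/-- the letters of a sub-structure in a role outside the closure are dense -/
theorem dens_letters {S : Finset (V → Fin n)} {κ : ℝ} {T : ℕ} (hn : 0 < n) (hT : 1 ≤ κ * T)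
    (hE : Exact M R) (hJ : JCOut M univ κ R S) {τ : Finset V} {η : V → Fin n} (hη : η ∈ S) {v : V}
    (hv : ¬ M.InCl τ v) : n ≤ T * ((sub S τ η).image fun ρ => ρ v).card := by
  classical
  set Z := (sub S τ η).image fun ρ => ρ v with hZ
  have hr := ind_of_not_incl hv
  have hr' := rk_le_r M (insert v τ)
  have h1 : (sub S τ η).card ≤ Z.card * n ^ (M.r - M.rk (insert v τ)) := by
    have h2 : (sub S τ η) ⊆ Z.biUnion fun z => (sub S τ η).filter fun ρ => ρ v = z := by
      intro ρ hρ
      rw [mem_biUnion]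
      exact ⟨ρ v, mem_image_of_mem _ hρ, mem_filter.2 ⟨hρ, rfl⟩⟩
    refine (card_le_card h2).trans (card_biUnion_le_card_mul _ _ _ fun z hz => ?_)
    rcases ((sub S τ η).filter fun ρ => ρ v = z).eq_empty_or_nonempty with h3 | ⟨σ, hσ⟩
    · rw [h3]
      exact Nat.zero_le _
    · refine le_trans (card_le_card ?_) (card_sub_le (exact_mono hE hJ.1) (insert v τ) σ)
      intro ρ hρ
      rw [mem_filter, mem_sub] at hρ hσ
      rw [mem_sub]
      refine ⟨hρ.1.1, fun u hu => ?_⟩
      rw [mem_insert] at hu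
      rcases hu with rfl | hu
      · rw [hρ.2, hσ.2]
      · rw [← hρ.1.2 u hu, ← hσ.1.2 u hu]
  have h4 : κ * (n : ℝ) ^ (M.r - M.rk τ) ≤ ((sub S τ η).card : ℝ) := (hJ.2.2 τ (mem_univ _) η hη).1
  have h5 : M.r - M.rk τ = (M.r - M.rk (insert v τ)) + 1 := by omega
  have h6 : κ * (n : ℝ) * (n : ℝ) ^ (M.r - M.rk (insert v τ)) ≤
      (Z.card : ℝ) * (n : ℝ) ^ (M.r - M.rk (insert v τ)) := by
    calc κ * (n : ℝ) * (n : ℝ) ^ (M.r - M.rk (insert v τ))
        = κ * (n : ℝ) ^ (M.r - M.rk τ) := by rw [h5]; ring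
      _ ≤ _ := h4
      _ ≤ _ := by exact_mod_cast h1
  have h7 : κ * (n : ℝ) ≤ (Z.card : ℝ) := le_of_mul_le_mul_right h6 (by positivity)
  have h8 : (n : ℝ) ≤ (T : ℝ) * (Z.card : ℝ) := by
    calc (n : ℝ) = 1 * (n : ℝ) := by ring
      _ ≤ (κ * T) * (n : ℝ) := by
          apply mul_le_mul_of_nonneg_right hT; positivity
      _ = T * (κ * n) := by ring
      _ ≤ T * (Z.card : ℝ) := by
          apply mul_le_mul_of_nonneg_left h7; positivity
  exact_mod_cast h8

end Card

end Pool.Agent.helper20.MF
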