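import Mathlib
import Pool.Agent.MF.Frame2
import Pool.Agent.MF.MatB
import Pool.Agent.helper20.MF.Glue
import Pool.Agent.helper34.MF.Rel

/-!
# MP_141f81, Section 9: correspondences of a sub-structure, their sections, and the relations between them

`Hc M π τ L P A` is the subgroup of `U × U` generated by the pairs (value of `v`, value of `A v`), for the rows of `P` and
the roles `v ∈ L` outside the closure of `τ`.  `HT` is the same for tuples of role maps.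
-/

set_option autoImplicit false
set_option linter.unusedSectionVars false
set_option linter.unusedVariables false

namespace Pool.Agent.helper20.MF

open Finset Pool.Agent.MF Helper34MF

section

variable {N : Type} [AddCommGroup N] [Fintype N] [DecidableEq N] {M : Mat N} {n T : ℕ}
  {R S : Finset (N → Fin n)} {U : Type} [AddCommGroup U]

/-- the pairs (value of `v`, value of `A v`) -/
def Hc (M : Mat N) (π : N → Fin n → U) (τ L : Finset N) (P : Finset (N → Fin n)) (A : N → N) :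
    AddSubgroup (U × U) :=
  AddSubgroup.closure {w | ∃ ρ ∈ P, ∃ v ∈ L, ¬ M.InCl τ v ∧ w = (π v (ρ v), π (A v) (ρ (A v)))}

/-- the tuples of values of `α i v` -/
def HT {ι : Type} (M : Mat N) (π : N → Fin n → U) (τ L : Finset N) (P : Finset (N → Fin n))
    (α : ι → N → N) : AddSubgroup (ι → U) :=
  AddSubgroup.closure {w | ∃ ρ ∈ P, ∃ v ∈ L, ¬ M.InCl τ v ∧ w = fun i => π (α i v) (ρ (α i v))}

variable {π : N → Fin n → U} {τ L τ' L' : Finset N} {P P' : Finset (N → Fin n)} {η : N → Fin n}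

theorem Hc_mem {ρ : N → Fin n} (hρ : ρ ∈ P) {v : N} (hv : v ∈ L) (hv' : ¬ M.InCl τ v) (A : N → N) :
    (π v (ρ v), π (A v) (ρ (A v))) ∈ Hc M π τ L P A :=
  AddSubgroup.subset_closure ⟨ρ, hρ, v, hv, hv', rfl⟩

theorem HT_mem {ι : Type} {ρ : N → Fin n} (hρ : ρ ∈ P) {v : N} (hv : v ∈ L) (hv' : ¬ M.InCl τ v)
    (α : ι → N → N) : (fun i => π (α i v) (ρ (α i v))) ∈ HT M π τ L P α :=
  AddSubgroup.subset_closure ⟨ρ, hρ, v, hv, hv', rfl⟩

/-- the letters of a type in the closure of `τ` are determined by those of `τ` -/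
theorem sub_sub_of (hE : Exact M S) (hη : η ∈ S) (hτ : ∀ w ∈ τ', M.InCl τ w) : sub S τ η ⊆ sub S τ' η := by
  intro ρ hρ
  have h := Pool.Agent.helper20.MF.mem_sub.1 hρ
  refine Pool.Agent.helper20.MF.mem_sub.2 ⟨h.1, fun w hw => ?_⟩
  exact hE τ w (hτ w hw) η hη ρ h.1 h.2

theorem ncl_of (hτ : ∀ w ∈ τ', M.InCl τ w) {v : N} (hv : ¬ M.InCl τ v) : ¬ M.InCl τ' v :=
  fun h => hv (h.trans hτ)

/-- if `v ∈ cl (τ ∪ w)` is outside the closure of `τ`, then so is `w` -/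
theorem ncl_of' {v w : N} (hv : ¬ M.InCl τ v) (h : M.InCl (insert w τ) v) : ¬ M.InCl τ w := by
  intro hw
  apply hv
  refine h.trans fun x hx => ?_
  rw [mem_insert] at hx
  rcases hx with rfl | hx
  · exact hw
  · exact incl_mem hx

/-- **Coordinates.**  A pair of coordinates of a tuple is in a correspondence. -/
theorem HT_pair {ι : Type} {α : ι → N → N} {i j : ι} {A : N → N} (hP : P ⊆ P')
    (h : ∀ v ∈ L, ¬ M.InCl τ v → α i v ∈ L' ∧ ¬ M.InCl τ' (α i v) ∧ α j v = A (α i v)) {w : ι → U}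
    (hw : w ∈ HT M π τ L P α) : (w i, w j) ∈ Hc M π τ' L' P' A := by
  have h1 : HT M π τ L P α ≤
      (Hc M π τ' L' P' A).comap ((Pi.evalAddMonoidHom (fun _ => U) i).prod (Pi.evalAddMonoidHom (fun _ => U) j)) := by
    unfold HT
    rw [AddSubgroup.closure_le]
    rintro w ⟨ρ, hρ, v, hv, hv', rfl⟩
    obtain ⟨h2, h3, h4⟩ := h v hv hv'
    show (π (α i v) (ρ (α i v)), π (α j v) (ρ (α j v))) ∈ Hc M π τ' L' P' A
    rw [h4]
    exact Hc_mem (hP hρ) h2 h3 A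
  exact h1 hw

/-- **Linear relations** of three coordinates. -/
theorem HT_three {ι : Type} {α : ι → N → N} {i j k : ι}
    (hadd : ∀ ρ ∈ P, ∀ v ∈ L, π (α i v) (ρ (α i v)) + π (α j v) (ρ (α j v)) + π (α k v) (ρ (α k v)) = 0)
    {w : ι → U} (hw : w ∈ HT M π τ L P α) : w i + w j + w k = 0 := by
  have h1 : HT M π τ L P α ≤ ((Pi.evalAddMonoidHom (fun _ => U) i) + (Pi.evalAddMonoidHom (fun _ => U) j) +
      (Pi.evalAddMonoidHom (fun _ => U) k)).ker := by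
    unfold HT
    rw [AddSubgroup.closure_le]
    rintro w ⟨ρ, hρ, v, hv, hv', rfl⟩
    show π (α i v) (ρ (α i v)) + π (α j v) (ρ (α j v)) + π (α k v) (ρ (α k v)) = 0
    exact hadd ρ hρ v hv
  exact h1 hw

end

section

variable {N : Type} [AddCommGroup N] [Fintype N] [DecidableEq N] {M : Mat N} {n T : ℕ}
  {R S : Finset (N → Fin n)} {U : Type} [AddCommGroup U] [Fintype U] [DecidableEq U]
  {π : N → Fin n → U} {τ L τ' L' Lin : Finset N} {η : N → Fin n}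

/-- additivity on three roles with sum zero -/
theorem add_three (h : EMOut M n T R S U π) {ρ : N → Fin n} (hρ : ρ ∈ R) {u v w : N} (huvw : u + v + w = 0) :
    π u (ρ u) + π v (ρ v) + π w (ρ w) = 0 := by
  have e : w = u + v := by
    have h1 := M.two w
    calc w = (u + v + w) + w := by rw [huvw, zero_add]
      _ = u + v + (w + w) := by abel
      _ = u + v := by rw [h1, add_zero]
  rw [e, h.add ρ hρ u v, h.two]

theorem S_sub (h : EMOut M n T R S U π) : S ⊆ R := by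
  obtain ⟨κ, _, hJ⟩ := h.jc
  exact hJ.1

/-- the values of one role of a sub-structure are dense -/
theorem dens_values (h : EMOut M n T R S U π) (hη : η ∈ S) {v : N} (hv : ¬ M.InCl τ v) :
    n ≤ T * (T * ((sub S τ η).image fun ρ => π v (ρ v)).card) := by
  classical
  obtain ⟨κ, hκ, hJ⟩ := h.jc
  have hn : 0 < n := by
    rcases Nat.eq_zero_or_pos n with hn | hn
    · subst hn
      exact (η 0).elim0
    · exact hn
  have h1 := dens_letters hn hκ h.exact hJ hη hv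
  have h2 : ((sub S τ η).image fun ρ => ρ v).card ≤ T * ((sub S τ η).image fun ρ => π v (ρ v)).card := by
    have hv0 : v ≠ 0 := by
      rintro rfl
      exact hv (Mat.inCl_zero τ)
    refine Finset.card_le_mul_card_image_of_maps_to (f := fun y => π v y) ?_ T ?_
    · intro y hy
      rw [mem_image] at hy ⊢
      obtain ⟨ρ, hρ, rfl⟩ := hy
      exact ⟨ρ, hρ, rfl⟩
    · intro w hw
      refine le_trans (card_le_card ?_) (h.fib v w hv0)
      intro y hy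
      rw [mem_filter, mem_image] at hy
      obtain ⟨⟨ρ, hρ, rfl⟩, hy⟩ := hy
      rw [mem_filter]
      exact ⟨mem_univ _, ⟨ρ, S_sub h (Pool.Agent.helper20.MF.mem_sub.1 hρ).1, rfl⟩, hy⟩
  exact h1.trans (Nat.mul_le_mul_left T h2)

/-- **(G1)** a subgroup which contains the values of one role of a sub-structure has bounded index -/
theorem index_le (h : EMOut M n T R S U π) (hη : η ∈ S) {v : N} (hv : ¬ M.InCl τ v) (D : AddSubgroup U)
    (hD : ∀ ρ ∈ sub S τ η, π v (ρ v) ∈ D) : D.index ≤ T ^ 3 := by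
  classical
  have h1 := dens_values h hη hv
  have h2 : ((sub S τ η).image fun ρ => π v (ρ v)).card ≤ Nat.card D := by
    rw [← SetLike.coe_sort_coe D, Nat.card_coe_set_eq]
    have h3 : (((sub S τ η).image fun ρ => π v (ρ v) : Finset U) : Set U) ⊆ (D : Set U) := by
      intro y hy
      rw [mem_coe, mem_image] at hy
      obtain ⟨ρ, hρ, rfl⟩ := hy
      exact hD ρ hρ
    have h4 := Set.ncard_le_ncard h3 (Set.toFinite _)
    rw [Set.ncard_coe_finset] at h4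
    exact h4
  have h3 := AddSubgroup.card_mul_index D
  have h4 : Nat.card U ≤ T * n := by
    rw [Nat.card_eq_fintype_card]
    exact h.cardU
  have hpos : 0 < Nat.card D := Nat.card_pos
  have h5 : Nat.card D * D.index ≤ Nat.card D * T ^ 3 := by
    calc Nat.card D * D.index = Nat.card U := h3
      _ ≤ T * n := h4
      _ ≤ T * (T * (T * ((sub S τ η).image fun ρ => π v (ρ v)).card)) := Nat.mul_le_mul_left _ h1
      _ ≤ T * (T * (T * Nat.card D)) := by gcongr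
      _ = Nat.card D * T ^ 3 := by ring
  exact Nat.le_of_mul_le_mul_left h5 hpos

theorem n_le (h : EMOut M n T R S U π) (hη : η ∈ S) {v : N} (hv : ¬ M.InCl τ v) :
    n ≤ T ^ 2 * Nat.card U := by
  classical
  have h1 := dens_values h hη hv
  have h2 : ((sub S τ η).image fun ρ => π v (ρ v)).card ≤ Nat.card U := by
    rw [Nat.card_eq_fintype_card]
    exact card_le_univ _
  calc n ≤ T * (T * ((sub S τ η).image fun ρ => π v (ρ v)).card) := h1
    _ ≤ T * (T * Nat.card U) := by gcongr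
    _ = T ^ 2 * Nat.card U := by ring

/-- the size of a correspondence, from Lemma SUB -/
theorem card_Hc_le {K : ℕ} {A : N → N}
    (hK : ∀ H : AddSubgroup (Fin 2 → U),
      H = AddSubgroup.closure {w | ∃ ρ ∈ sub S τ η, ∃ v ∈ L, ¬ M.InCl τ v ∧
        w = fun i => π ((![id, A] : Fin 2 → N → N) i v) (ρ ((![id, A] : Fin 2 → N → N) i v))} →
      Nat.card H ≤ K * n) : Nat.card (Hc M π τ L (sub S τ η) A) ≤ K * n := by
  have h1 := hK _ rfl
  refine le_trans ?_ h1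
  set H := AddSubgroup.closure {w : Fin 2 → U | ∃ ρ ∈ sub S τ η, ∃ v ∈ L, ¬ M.InCl τ v ∧
        w = fun i => π ((![id, A] : Fin 2 → N → N) i v) (ρ ((![id, A] : Fin 2 → N → N) i v))} with hH
  have h2 : Hc M π τ L (sub S τ η) A ≤
      H.map ((Pi.evalAddMonoidHom (fun _ => U) (0 : Fin 2)).prod (Pi.evalAddMonoidHom (fun _ => U) (1 : Fin 2))) := by
    unfold Hc
    rw [AddSubgroup.closure_le]
    rintro w ⟨ρ, hρ, v, hv, hv', rfl⟩
    refine ⟨_, AddSubgroup.subset_closure ⟨ρ, hρ, v, hv, hv', rfl⟩, rfl⟩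
  refine (AddSubgroup.card_le_of_le h2).trans ?_
  have hfin : Finite H := inferInstance
  exact Nat.card_le_card_of_surjective
    (fun x : H => (⟨_, AddSubgroup.mem_map_of_mem _ x.2⟩ : H.map _)) (by
      rintro ⟨y, x, hx, rfl⟩
      exact ⟨⟨x, hx⟩, rfl⟩)

/-- the roles of a correspondence -/
structure RoleOK (M : Mat N) (Lin τ L : Finset N) (A : N → N) : Prop where
  rk : M.rk τ ≤ 2
  lin : Lin ⊆ L
  add_mem : ∀ u ∈ L, ∀ v ∈ L, u + v ∈ L
  add : ∀ u ∈ L, ∀ v ∈ L, A (u + v) = A u + A v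
  cl : ∀ v ∈ L, M.InCl (insert v τ) (A v)
  cl' : ∀ v ∈ L, M.InCl (insert (A v) τ) v

/-- a total map `A` attached to a correspondence `H` -/
structure Op (H : AddSubgroup (U × U)) (A : U →+ U) (K : ℕ) : Prop where
  sec : Sec H A K
  dom : (pr1 H).index ≤ K
  rng : (pr2 H).index ≤ K
  ker : Nat.card A.ker ≤ K
  card : Nat.card H ≤ K * Nat.card U

theorem exists_out (hL : LinPart M Lin) (hτ : M.rk τ ≤ 2) : ∃ v ∈ Lin, ¬ M.InCl τ v := by
  by_contra hcon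
  push Not at hcon
  have h1 := hL.small τ Lin (fun v hv => ⟨hv, hcon v hv⟩)
  have h2 := hL.card
  have h3 : 2 ^ M.rk τ ≤ 2 ^ 2 := Nat.pow_le_pow_right (by norm_num) hτ
  omega

/-- kernels of sections -/
theorem ker_le [Finite U] {H : AddSubgroup (U × U)} {A : U →+ U} {K k1 k2 k : ℕ} (hs : Sec H A k)
    (hH : Nat.card H ≤ K * Nat.card U) (h1 : (pr1 H).index ≤ k1) (h2 : (pr2 H).index ≤ k2) :
    Nat.card A.ker ≤ k1 * (K * k2) := by
  have h3 := indet_le (swp H) K k2 (by rw [card_swp]; exact hH) (by rw [pr1_swp]; exact h2)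
  have h4 := card_inf_map A.ker ((QuotientAddGroup.mk' (pr1 H)))
  have h5 : Nat.card ((QuotientAddGroup.mk' (pr1 H)).ker ⊓ A.ker : AddSubgroup U) ≤ K * k2 := by
    refine le_trans ?_ h3
    rw [← SetLike.coe_sort_coe, Nat.card_coe_set_eq]
    refine Set.ncard_le_ncard ?_ (Set.toFinite _)
    rintro x ⟨hx1, hx2⟩
    have hx1' : x ∈ (QuotientAddGroup.mk' (pr1 H)).ker := hx1
    rw [QuotientAddGroup.ker_mk'] at hx1'
    have hx3 := hs.mem x hx1'
    have hx4 : A x = 0 := hx2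
    rw [hx4] at hx3
    exact hx3
  have h6 : Nat.card (A.ker.map (QuotientAddGroup.mk' (pr1 H))) ≤ k1 := by
    refine le_trans ?_ h1
    exact Nat.card_le_card_of_injective (fun x => x.1) Subtype.val_injective
  calc Nat.card A.ker = _ := h4.symm
    _ ≤ (K * k2) * k1 := Nat.mul_le_mul h5 h6
    _ = k1 * (K * k2) := by ring

/-- **(G2)**: every correspondence of a sub-structure has a total section; one constant. -/
theorem exists_op (hSub : StmtSub) (M : Mat N) (Lin : Finset N) (hLin : LinPart M Lin) (T : ℕ) : ∃ K : ℕ,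
    1 ≤ K ∧ ∀ (n : ℕ) (R S : Finset (N → Fin n)) (U : Type) (_ : AddCommGroup U) (_ : Fintype U)
      (_ : DecidableEq U) (π : N → Fin n → U), EMOut M n T R S U π →
    ∀ (τ L : Finset N) (A : N → N), RoleOK M Lin τ L A → ∀ η ∈ S,
      ∃ A' : U →+ U, Op (Hc M π τ L (sub S τ η) A) A' K := by
  obtain ⟨K0, hK0⟩ := hSub N M Lin hLin T 2
  set K : ℕ := 1 + T ^ 3 + (K0 * T ^ 2) + (K0 * T ^ 2) * T ^ 3 + T ^ 3 * ((K0 * T ^ 2) * T ^ 3) with hK
  refine ⟨K, by omega, ?_⟩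
  intro n R S U i1 i2 i3 π h τ L A hA η hη
  obtain ⟨v0, hv0, hv0'⟩ := exists_out hLin hA.rk
  have hv0L := hA.lin hv0
  have h1 : Nat.card (Hc M π τ L (sub S τ η) A) ≤ K0 * n := by
    refine card_Hc_le fun H hH => ?_
    refine hK0 n R S U i1 i2 i3 π h τ L ![id, A] hA.rk hA.lin hA.add_mem ?_ ?_ η hη H hH
    · intro i
      fin_cases i
      · intro u _ v _
        rfl
      · exact hA.add
    · intro i
      fin_cases i
      · intro v _
        exact incl_mem (mem_insert_self _ _)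
      · exact hA.cl
  have h2 : Nat.card (Hc M π τ L (sub S τ η) A) ≤ (K0 * T ^ 2) * Nat.card U := by
    calc _ ≤ K0 * n := h1
      _ ≤ K0 * (T ^ 2 * Nat.card U) := Nat.mul_le_mul_left _ (n_le h hη hv0')
      _ = _ := by ring
  have h3 : (pr1 (Hc M π τ L (sub S τ η) A)).index ≤ T ^ 3 := by
    refine index_le h hη hv0' _ fun ρ hρ => ?_
    rw [mem_pr1]
    exact ⟨_, Hc_mem hρ hv0L hv0' A⟩
  have h4 : (pr2 (Hc M π τ L (sub S τ η) A)).index ≤ T ^ 3 := by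
    refine index_le h hη (ncl_of' hv0' (hA.cl' v0 hv0L)) _ fun ρ hρ => ?_
    rw [mem_pr2]
    exact ⟨_, Hc_mem hρ hv0L hv0' A⟩
  obtain ⟨A', hA'⟩ := Sec.exists_of_corr h.two h.two _ _ _ h2 h3
  have h5 := ker_le hA' h2 h3 h4
  refine ⟨A', ⟨⟨hA'.mem, hA'.le.trans (by omega)⟩, h3.trans (by omega), h4.trans (by omega), h5.trans (by omega), ?_⟩⟩
  exact h2.trans (Nat.mul_le_mul_right _ (by omega))

/-- the common domain of a tuple -/
theorem HT_dom {ι : Type} (h : EMOut M n T R S U π) (hη : η ∈ S) (α : ι → N → N) (i : ι) {v : N} (hv : v ∈ L)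
    (hv' : ¬ M.InCl τ v) (hv'' : ¬ M.InCl τ (α i v)) :
    ∃ D : AddSubgroup U, D.index ≤ T ^ 3 ∧ ∀ x ∈ D, ∃ w ∈ HT M π τ L (sub S τ η) α, w i = x := by
  refine ⟨(HT M π τ L (sub S τ η) α).map (Pi.evalAddMonoidHom (fun _ => U) i), ?_, ?_⟩
  · refine index_le h hη hv'' _ fun ρ hρ => ?_
    exact ⟨_, HT_mem hρ hv hv' α, rfl⟩
  · rintro x ⟨w, hw, rfl⟩
    exact ⟨w, hw, rfl⟩

/-- the sub-structure `(τ, L)` is mapped into `(τ', L')` by the role map `α` -/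
structure Into (M : Mat N) (τ L τ' L' : Finset N) (α : N → N) : Prop where
  cl : ∀ w ∈ τ', M.InCl τ w
  mem : ∀ v ∈ L, α v ∈ L'
  out : ∀ v ∈ L, M.InCl (insert (α v) τ) v

theorem Into.ncl {α : N → N} (h : Into M τ L τ' L' α) {v : N} (hv : v ∈ L) (hv' : ¬ M.InCl τ v) :
    ¬ M.InCl τ' (α v) := ncl_of h.cl (ncl_of' hv' (h.out v hv))

theorem Into.id (hτ : ∀ w ∈ τ', M.InCl τ w) (hL : L ⊆ L') : Into M τ L τ' L' (fun v => v) :=
  ⟨hτ, fun v hv => hL hv, fun v _ => incl_mem (mem_insert_self _ _)⟩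

/-- two coordinates of a tuple -/
theorem HT_into (hE : Exact M S) (hη : η ∈ S) {ι : Type} {α : ι → N → N} {i j : ι} {A : N → N}
    (hI : Into M τ L τ' L' (α i)) (hj : ∀ v ∈ L, α j v = A (α i v)) {w : ι → U}
    (hw : w ∈ HT M π τ L (sub S τ η) α) : (w i, w j) ∈ Hc M π τ' L' (sub S τ' η) A :=
  HT_pair (sub_sub_of hE hη hI.cl) (fun v hv hv' => ⟨hI.mem v hv, hI.ncl hv hv', hj v hv⟩) hw

section rel

variable {τ₁ τ₂ τ₃ τ₄ L₁ L₂ L₃ L₄ : Finset N} {A B C D : N → N} {f₁ f₂ f₃ f₄ : U →+ U} {k₁ k₂ k₃ k₄ : ℕ}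

/-- the same role map for two types -/
theorem rel_same (h : EMOut M n T R S U π) (hη : η ∈ S) (hout : ∃ v ∈ L, ¬ M.InCl τ v)
    (h1 : Into M τ L τ₁ L₁ (fun v => v)) (h2 : Into M τ L τ₂ L₂ (fun v => v))
    (s1 : Sec (Hc M π τ₁ L₁ (sub S τ₁ η) A) f₁ k₁) (s2 : Sec (Hc M π τ₂ L₂ (sub S τ₂ η) B) f₂ k₂)
    (hAB : ∀ v ∈ L, A v = B v) : Sim (T ^ 3 * (k₁ * k₂)) f₁ f₂ := by
  have hE := Exact.mono h.exact (S_sub h)
  obtain ⟨v0, hv0, hv0'⟩ := hout
  obtain ⟨D, hD, hD'⟩ := HT_dom (L := L) h hη (![fun v => v, A] : Fin 2 → N → N) 0 hv0 hv0' hv0'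
  refine sim_of_same h.two D _ _ _ hD s1 s2 fun x hx => ?_
  obtain ⟨w, hw, rfl⟩ := hD' x hx
  exact ⟨w 1, HT_into hE hη (i := 0) (j := 1) h1 (fun v _ => rfl) hw,
    HT_into hE hη (i := 0) (j := 1) h2 (fun v hv => hAB v hv) hw⟩

/-- **(G3) lines**: `A v + B v + C v = 0` -/
theorem rel_three (h : EMOut M n T R S U π) (hη : η ∈ S) (hout : ∃ v ∈ L, ¬ M.InCl τ v)
    (h1 : Into M τ L τ₁ L₁ (fun v => v)) (h2 : Into M τ L τ₂ L₂ (fun v => v))
    (h3 : Into M τ L τ₃ L₃ (fun v => v))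
    (s1 : Sec (Hc M π τ₁ L₁ (sub S τ₁ η) A) f₁ k₁) (s2 : Sec (Hc M π τ₂ L₂ (sub S τ₂ η) B) f₂ k₂)
    (s3 : Sec (Hc M π τ₃ L₃ (sub S τ₃ η) C) f₃ k₃) (hsum : ∀ v ∈ L, A v + B v + C v = 0) :
    Nat.card (f₁ + f₂ + f₃).range ≤ T ^ 3 * (k₁ * k₂ * k₃) := by
  have hE := Exact.mono h.exact (S_sub h)
  obtain ⟨v0, hv0, hv0'⟩ := hout
  obtain ⟨D, hD, hD'⟩ := HT_dom (L := L) h hη (![fun v => v, A, B, C] : Fin 4 → N → N) 0 hv0 hv0' hv0'
  refine sim_of_three D _ _ _ _ hD s1 s2 s3 fun x hx => ?_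
  obtain ⟨w, hw, rfl⟩ := hD' x hx
  refine ⟨w 1, w 2, w 3, HT_into hE hη (i := 0) (j := 1) h1 (fun v _ => rfl) hw,
    HT_into hE hη (i := 0) (j := 2) h2 (fun v _ => rfl) hw,
    HT_into hE hη (i := 0) (j := 3) h3 (fun v _ => rfl) hw, ?_⟩
  refine HT_three (i := 1) (j := 2) (k := 3) (fun ρ hρ v hv => ?_) hw
  exact add_three h (S_sub h (Pool.Agent.helper20.MF.mem_sub.1 hρ).1) (hsum v hv)

/-- **(G3) composition**: `C v = A (B v)` -/
theorem rel_comp (h : EMOut M n T R S U π) (hη : η ∈ S) (hout : ∃ v ∈ L, ¬ M.InCl τ v)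
    (h1 : Into M τ L τ₁ L₁ (fun v => v)) (h2 : Into M τ L τ₂ L₂ B) (h3 : Into M τ L τ₃ L₃ (fun v => v))
    (s1 : Sec (Hc M π τ₁ L₁ (sub S τ₁ η) B) f₁ k₁) (s2 : Sec (Hc M π τ₂ L₂ (sub S τ₂ η) A) f₂ k₂)
    (s3 : Sec (Hc M π τ₃ L₃ (sub S τ₃ η) C) f₃ k₃) (hC : ∀ v ∈ L, C v = A (B v)) :
    Sim (T ^ 3 * (k₁ * k₂ * k₃)) (f₂.comp f₁) f₃ := by
  have hE := Exact.mono h.exact (S_sub h)
  obtain ⟨v0, hv0, hv0'⟩ := hout
  obtain ⟨D, hD, hD'⟩ := HT_dom (L := L) h hη (![fun v => v, B, C] : Fin 3 → N → N) 0 hv0 hv0' hv0'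
  refine sim_comp h.two D _ _ _ _ hD s1 s2 s3 fun x hx => ?_
  obtain ⟨w, hw, rfl⟩ := hD' x hx
  exact ⟨w 1, w 2, HT_into hE hη (i := 0) (j := 1) h1 (fun v _ => rfl) hw,
    HT_into hE hη (i := 1) (j := 2) h2 (fun v hv => hC v hv) hw,
    HT_into hE hη (i := 0) (j := 2) h3 (fun v _ => rfl) hw⟩

/-- **(G3) squares**: `A (B v) = C (D v)` -/
theorem rel_square (h : EMOut M n T R S U π) (hη : η ∈ S) (hout : ∃ v ∈ L, ¬ M.InCl τ v)
    (h1 : Into M τ L τ₁ L₁ (fun v => v)) (h2 : Into M τ L τ₂ L₂ B) (h3 : Into M τ L τ₃ L₃ (fun v => v))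
    (h4 : Into M τ L τ₄ L₄ D)
    (s1 : Sec (Hc M π τ₁ L₁ (sub S τ₁ η) B) f₁ k₁) (s2 : Sec (Hc M π τ₂ L₂ (sub S τ₂ η) A) f₂ k₂)
    (s3 : Sec (Hc M π τ₃ L₃ (sub S τ₃ η) D) f₃ k₃) (s4 : Sec (Hc M π τ₄ L₄ (sub S τ₄ η) C) f₄ k₄)
    (hsq : ∀ v ∈ L, A (B v) = C (D v)) :
    Sim (T ^ 3 * (k₁ * k₂ * (k₃ * k₄))) (f₂.comp f₁) (f₄.comp f₃) := by
  have hE := Exact.mono h.exact (S_sub h)
  obtain ⟨v0, hv0, hv0'⟩ := hout
  obtain ⟨D', hD, hD'⟩ := HT_dom (L := L) h hη (![fun v => v, B, fun v => A (B v), D] : Fin 4 → N → N) 0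
    hv0 hv0' hv0'
  refine sim_square h.two D' _ _ _ _ _ hD s1 s2 s3 s4 fun x hx => ?_
  obtain ⟨w, hw, rfl⟩ := hD' x hx
  exact ⟨w 1, w 2, w 3, HT_into hE hη (i := 0) (j := 1) h1 (fun v _ => rfl) hw,
    HT_into hE hη (i := 1) (j := 2) h2 (fun v _ => rfl) hw,
    HT_into hE hη (i := 0) (j := 3) h3 (fun v _ => rfl) hw,
    HT_into hE hη (i := 3) (j := 2) h4 (fun v hv => hsq v hv) hw⟩

/-- the values on letters -/
theorem val_mem {ρ : N → Fin n} (hρ : ρ ∈ sub S τ η) {v : N} (hv : v ∈ L) (hv' : ¬ M.InCl τ v)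
    (s1 : Sec (Hc M π τ L (sub S τ η) A) f₁ k₁) :
    f₁ (π v (ρ v)) - π (A v) (ρ (A v)) ∈ ind (Hc M π τ L (sub S τ η) A) := s1.diff (Hc_mem hρ hv hv' A)

/-- the correspondence depends only on the letters of the type -/
theorem sub_congr' {η' : N → Fin n} (h : ∀ w ∈ τ, η w = η' w) : sub S τ η = sub S τ η' := by
  ext ρ
  rw [Pool.Agent.helper20.MF.mem_sub, Pool.Agent.helper20.MF.mem_sub]
  constructor
  · rintro ⟨h1, h2⟩
    exact ⟨h1, fun w hw => by rw [← h w hw, h2 w hw]⟩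
  · rintro ⟨h1, h2⟩
    exact ⟨h1, fun w hw => by rw [h w hw, h2 w hw]⟩

end rel

end

end Pool.Agent.helper20.MF
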