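import Mathlib
import Pool.Agent.MF.Frame2
import Pool.Agent.MF.SlotDefs
import Pool.Agent.helper20.MF.Mul
import Pool.Agent.helper20.MF.Glue

/-!
# MP_141f81, Section 7e: the row side of the input `In7`

`S ⊆ R` rows; `Tt` the norm of a sub-structure (words of letters of `S`, sums of lines of `R`), `PL` its letters.
-/

set_option autoImplicit false
set_option linter.unusedSectionVars false
set_option linter.unusedVariables false

namespace Pool.Agent.helper20.MF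

open Finset Pool.Agent.MF
open Pool.Agent.helper35.MF (Ball ball_add sy wd)

section

variable {V : Type} [AddCommGroup V] [Fintype V] [DecidableEq V] {M : Mat V} {n : ℕ}
  {R S : Finset (V → Fin n)} {L τ : Finset V} {a b : V} {A B : V → V}

/-! ### definitions -/

/-- the rows through a letter -/
def thr (S : Finset (V → Fin n)) (p : V × Fin n) : Finset (V → Fin n) := S.filter fun ρ => ρ p.1 = p.2

/-- the rows through two letters -/
def thr2 (S : Finset (V → Fin n)) (p : (V × Fin n) × (V × Fin n)) : Finset (V → Fin n) :=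
  S.filter fun ρ => ρ p.1.1 = p.1.2 ∧ ρ p.2.1 = p.2.2

open Classical in
/-- the letter of role `v` of the rows through two letters -/
noncomputable def pp (R : Finset (V → Fin n)) (v : V) (p q : V × Fin n) : V × Fin n :=
  if h : ∃ ρ ∈ R, ρ p.1 = p.2 ∧ ρ q.1 = q.2 then (v, h.choose v) else p

/-- the pairs of letters of roles `a`, `b` -/
def A0 (S : Finset (V → Fin n)) (a b : V) : Finset ((V × Fin n) × (V × Fin n)) :=
  S.image fun ρ => ((a, ρ a), (b, ρ b))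

/-- multiplication by a letter of role `a`, `b` or `a + b` -/
noncomputable def Ml (R : Finset (V → Fin n)) (L : Finset V) (a b : V) (A B : V → V) (p : V × Fin n) :
    G V n →+ G V n :=
  if p.1 = a then MM R L a A p.2 else if p.1 = b then MM R L b B p.2 else
    MM R L (a + b) (fun w => A w + B w) p.2

/-! ### lemmas -/

theorem mem_PL' {τ L : Finset V} {S : Finset (V → Fin n)} {q : V × Fin n} (hq : q ∈ PL M τ L S) :
    ∃ ρ ∈ S, ∃ v ∈ L, ¬ M.InCl τ v ∧ q = (v, ρ v) := by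
  rw [mem_PL] at hq
  obtain ⟨h1, h2, ρ, hρ, h3⟩ := hq
  exact ⟨ρ, hρ, q.1, h1, h2, Prod.ext rfl h3.symm⟩

theorem PL_mk {τ L : Finset V} {S : Finset (V → Fin n)} {ρ : V → Fin n} (hρ : ρ ∈ S) {v : V} (hv : v ∈ L)
    (hv' : ¬ M.InCl τ v) : (v, ρ v) ∈ PL M τ L S := mem_PL.2 ⟨hv, hv', ρ, hρ, rfl⟩

theorem sy_lt (v : V) (x : Fin n) : (sy (v, x) : G V n) = lt v x := rfl

theorem sub_eq_thr {v : V} {η : V → Fin n} : sub S {v} η = thr S (v, η v) := by
  ext ρ
  rw [mem_sub, thr, mem_filter]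
  simp only [mem_singleton, forall_eq]
  constructor
  · rintro ⟨h1, h2⟩
    exact ⟨h1, h2.symm⟩
  · rintro ⟨h1, h2⟩
    exact ⟨h1, h2.symm⟩

theorem sub_eq_thr2 {v w : V} {η : V → Fin n} : sub S {v, w} η = thr2 S ((v, η v), (w, η w)) := by
  ext ρ
  rw [mem_sub, thr2, mem_filter]
  simp only [mem_insert, mem_singleton, forall_eq_or_imp, forall_eq]
  constructor
  · rintro ⟨h1, h2, h3⟩
    exact ⟨h1, h2.symm, h3.symm⟩
  · rintro ⟨h1, h2, h3⟩
    exact ⟨h1, h2.symm, h3.symm⟩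

theorem pp_eq (hE : Exact M R) {u w v : V} (hv : M.InCl {u, w} v) {ρ : V → Fin n} (hρ : ρ ∈ R) :
    pp R v (u, ρ u) (w, ρ w) = (v, ρ v) := by
  have hex : ∃ ρ' ∈ R, ρ' (u, ρ u).1 = (u, ρ u).2 ∧ ρ' (w, ρ w).1 = (w, ρ w).2 := ⟨ρ, hρ, rfl, rfl⟩
  unfold pp
  rw [dif_pos hex]
  obtain ⟨h1, h2, h3⟩ := hex.choose_spec
  have h4 : hex.choose v = ρ v := by
    refine hE {u, w} v hv _ h1 _ hρ ?_
    intro x hx
    rw [mem_insert, mem_singleton] at hx
    rcases hx with rfl | rfl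
    · exact h2
    · exact h3
  rw [h4]

/-- if `v ∈ cl (τ ∪ w)` is outside the closure of `τ`, then so is `w` -/
theorem not_incl_of {v w : V} (hv : ¬ M.InCl τ v) (h : M.InCl (insert w τ) v) : ¬ M.InCl τ w := by
  intro hw
  apply hv
  have h1 : M.rk (insert v (insert w τ)) = M.rk (insert w τ) := h
  have h2 : M.rk (insert w τ) = M.rk τ := hw
  have h3 : M.rk (insert v τ) ≤ M.rk (insert v (insert w τ)) :=
    M.rk_mono (insert_subset_insert _ (subset_insert _ _))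
  have h4 := M.rk_mono (subset_insert v τ)
  unfold Mat.InCl
  omega

theorem pair_subset {τ : Finset V} (ha : a ∈ τ) (w : V) : ({a, w} : Finset V) ⊆ insert w τ := by
  intro x hx
  rw [mem_insert, mem_singleton] at hx
  rw [mem_insert]
  rcases hx with rfl | rfl
  · exact Or.inr ha
  · exact Or.inl rfl

theorem out_of {τ : Finset V} (ha : a ∈ τ) {v w : V} (hv : ¬ M.InCl τ v) (h : M.InCl {a, w} v) :
    ¬ M.InCl τ w := not_incl_of hv (incl_mono h (pair_subset ha w))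

/-- **`M_x` does not increase the norm.** -/
theorem MM_Tt (hE : Exact M R) (hSR : S ⊆ R) (hA : ∀ v ∈ L, M.InCl {a, v} (A v))
    (hA' : ∀ v ∈ L, M.InCl {a, A v} v) (hadd : ∀ u ∈ L, ∀ v ∈ L, A (u + v) = A u + A v)
    (haτ : a ∈ τ) {η : V → Fin n} {g : G V n}
    (hg : g ∈ Tt M τ L (sub R τ η) (sub S τ η)) : MM R L a A (η a) g ∈ Tt M ∅ univ R S := by
  obtain ⟨⟨l, h1, h2, h3⟩, h4⟩ := hg
  have key : ∀ q ∈ PL M τ L (sub S τ η), ∃ q' ∈ PL M ∅ univ S, MM R L a A (η a) (sy q) = sy q' := by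
    intro q hq
    obtain ⟨ρ, hρ, v, hv, hv', rfl⟩ := mem_PL' hq
    have hρ' := mem_sub.1 hρ
    refine ⟨(A v, ρ (A v)), PL_mk hρ'.1 (mem_univ _) (SD_empty.2 (SD_ne (out_of haτ hv' (hA' v hv)))), ?_⟩
    exact MM_lt hE hA hv (hSR hρ'.1) (hρ'.2 a haτ).symm
  refine ⟨?_, Ball_map _ (fun _ ht => Pool.Agent.helper20.MF.Lines_mono (Finset.filter_subset _ _) subset_rfl
    (MM_lines hE hA hA' hadd haτ ht)) h4⟩
  choose! f hf hf' using key
  refine ⟨l.map f, by rwa [List.length_map], ?_, ?_⟩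
  · intro x hx
    obtain ⟨y, hy, rfl⟩ := List.mem_map.mp hx
    exact hf y (h2 y hy)
  · rw [← h3]
    unfold wd
    rw [map_list_sum, List.map_map, List.map_map]
    congr 1
    apply List.map_congr_left
    intro x hx
    exact (hf' x (h2 x hx)).symm

theorem gen_ball {T : Set (G V n)} {g : G V n} (h : g ∈ T) : g ∈ Ball T 1 :=
  ⟨[g], by simp, by intro x hx; rw [List.mem_singleton] at hx; rw [hx]; exact h, by simp⟩

/-- a line of a row of `S` with non-zero roles, of area at most `82`, is a generator -/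
theorem lin_Tt {ρ : V → Fin n} (hρ : ρ ∈ S) {u v : V} (hu : u ≠ 0) (hv : v ≠ 0)
    (huv : u + v ≠ 0) {r : ℕ} (hr : r ≤ 82) (h : lin ρ u v ∈ Ball (Lines M ∅ univ R) r) :
    lin ρ u v ∈ Tt M ∅ univ R S := by
  have e : wd [(u, ρ u), (v, ρ v), (u + v, ρ (u + v))] = lin ρ u v := by
    simp only [wd, List.map_cons, List.map_nil, List.sum_cons, List.sum_nil, add_zero, lin, sy_lt, add_assoc]
  rw [← e]
  refine wd_Tt (by simp) ?_ hr (by rw [e]; exact h)
  intro w hw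
  simp only [List.mem_cons, List.not_mem_nil, or_false] at hw
  rcases hw with rfl | rfl | rfl
  · exact PL_mk hρ (mem_univ _) (SD_empty.2 hu)
  · exact PL_mk hρ (mem_univ _) (SD_empty.2 hv)
  · exact PL_mk hρ (mem_univ _) (SD_empty.2 huv)

theorem A0_mem {p : (V × Fin n) × (V × Fin n)} (hp : p ∈ A0 S a b) :
    ∃ ρ ∈ S, p = ((a, ρ a), (b, ρ b)) := by
  unfold A0 at hp
  rw [mem_image] at hp
  obtain ⟨ρ, hρ, rfl⟩ := hp
  exact ⟨ρ, hρ, rfl⟩

theorem not_incl_pair {u v : V} (h : M.rk {u, v} = 2) : ¬ M.InCl {u} v := by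
  intro h1
  have h2 : M.rk (insert v ({u} : Finset V)) = M.rk {u} := h1
  have h3 := M.rk_insert_le u ∅
  have h4 := M.rk_empty
  have e : (insert u ∅ : Finset V) = {u} := rfl
  have e2 : insert v ({u} : Finset V) = {u, v} := by
    ext x
    simp only [mem_insert, mem_singleton]
    tauto
  rw [e] at h3
  rw [e2] at h2
  omega

/-- facts about the pair `a`, `b` -/
structure KA (M : Mat V) (a b : V) : Prop where
  a0 : a ≠ 0
  b0 : b ≠ 0
  ab : a ≠ b
  ab0 : a + b ≠ 0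
  ab_a : a + b ≠ a
  ab_b : a + b ≠ b
  n_ab : ¬ M.InCl {a} b
  n_ba : ¬ M.InCl {b} a
  n_ua : ¬ M.InCl {a + b} a
  ind : M.Ind ∅ a b

theorem ka_of (h : M.rk {a, b} = 2) : KA M a b := by
  have h1 := not_incl_pair h
  have h2 : ¬ M.InCl {b} a := not_incl_pair (by rw [Finset.pair_comm]; exact h)
  have a0 : a ≠ 0 := SD_ne h2
  have b0 : b ≠ 0 := SD_ne h1
  have hab : a ≠ b := by
    rintro rfl
    exact h1 (incl_mem (by simp))
  have hab0 : a + b ≠ 0 := by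
    intro h3
    apply hab
    have h4 := sum_cancel M a b
    rw [h3, add_zero] at h4
    exact h4
  refine ⟨a0, b0, hab, hab0, ?_, ?_, h1, h2, ?_, ind_pair a0 h1⟩
  · intro h3
    exact b0 (by simpa using h3)
  · intro h3
    exact a0 (by simpa using h3)
  · intro h3
    have h4 : M.rk (insert a ({a + b} : Finset V)) = M.rk {a + b} := h3
    have h5 : M.rk ({a + b} : Finset V) ≤ 1 := by
      have := M.rk_insert_le (a + b) ∅
      have h6 := M.rk_empty
      have e : (insert (a + b) ∅ : Finset V) = {a + b} := rfl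
      rw [e] at this
      omega
    have h6 : M.InCl (insert a ({a + b} : Finset V)) b := by
      have h7 : M.InCl (insert a ({a + b} : Finset V)) a := incl_mem (mem_insert_self _ _)
      have h8 : M.InCl (insert a ({a + b} : Finset V)) (a + b) := incl_mem (by simp)
      exact incl_add_right h7 h8
    have h7 : M.rk (insert b (insert a ({a + b} : Finset V))) = M.rk (insert a ({a + b} : Finset V)) := h6
    have h8 : M.rk ({a, b} : Finset V) ≤ M.rk (insert b (insert a ({a + b} : Finset V))) := by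
      apply M.rk_mono
      intro x
      simp only [mem_insert, mem_singleton]
      tauto
    omega

theorem ncl_cl {w v : V} (hw : M.InCl τ w) (hv : ¬ M.InCl τ v) : ¬ M.InCl {w} v := by
  intro h
  apply hv
  have h1 : M.rk (insert v (insert w τ)) = M.rk (insert w τ) :=
    incl_mono h (by intro x; simp only [mem_singleton, mem_insert]; tauto)
  have h2 : M.rk (insert w τ) = M.rk τ := hw
  have h3 : M.rk (insert v τ) ≤ M.rk (insert v (insert w τ)) :=
    M.rk_mono (insert_subset_insert _ (subset_insert _ _))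
  have h4 := M.rk_mono (subset_insert v τ)
  unfold Mat.InCl
  omega

theorem ind_cl {w u v : V} (hw : M.InCl τ w) (h : M.Ind τ u v) : M.Ind {w} u v := by
  refine SD_ind (τ := insert w τ) (by intro x; simp only [mem_singleton, mem_insert]; tauto) ?_
  unfold Mat.Ind at h ⊢
  have h2 : M.rk (insert w τ) = M.rk τ := hw
  have h3 : M.rk (insert u (insert v τ)) ≤ M.rk (insert u (insert v (insert w τ))) :=
    M.rk_mono (insert_subset_insert _ (insert_subset_insert _ (subset_insert _ _)))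
  have h4 := M.rk_insert_le u (insert v (insert w τ))
  have h5 := M.rk_insert_le v (insert w τ)
  omega

theorem PL_cl {w : V} (hw : M.InCl τ w) {S' : Finset (V → Fin n)} (hS : S' ⊆ S) :
    PL M τ L S' ⊆ PL M {w} L S := by
  intro p hp
  rw [mem_PL] at hp ⊢
  obtain ⟨h1, h2, ρ, hρ, h3⟩ := hp
  exact ⟨h1, ncl_cl hw h2, ρ, hS hρ, h3⟩

theorem Tt_cl {w : V} (hw : M.InCl τ w) {R' S' : Finset (V → Fin n)} (hR : R' ⊆ R) (hS : S' ⊆ S) :
    Tt M τ L R' S' ⊆ Tt M {w} L R S := by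
  rintro g ⟨⟨l, h1, h2, h3⟩, h4⟩
  refine ⟨⟨l, h1, fun x hx => PL_cl hw hS (h2 x hx), h3⟩, Ball_mono' ?_ _ h4⟩
  rintro g ⟨ρ, hρ, u, hu, v, hv, huv, hi, rfl⟩
  exact ⟨ρ, hR hρ, u, hu, v, hv, huv, ind_cl hw hi, rfl⟩

theorem three_le_r {Lin : Finset V} (hL : LinPart M Lin) : 3 ≤ M.r := by
  have h1 := hL.small univ Lin (fun v hv => ⟨hv, incl_mem (mem_univ _)⟩)
  have h2 := hL.card
  by_contra hcon
  have h3 : M.rk univ ≤ 2 := by
    unfold Mat.r at hcon
    omega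
  have h4 : 2 ^ M.rk (univ : Finset V) ≤ 2 ^ 2 := Nat.pow_le_pow_right (by norm_num) h3
  omega

end

/-! ### the row side of `In7` -/

section

variable {V : Type} [AddCommGroup V] [Fintype V] [DecidableEq V]

/-- everything about the rows that `In7` needs, besides the slots, `φ` and the coarse set -/
structure RowOut (M : Mat V) {n : ℕ} (R S : Finset (V → Fin n)) (Lin : Finset V) (a b : V)
    (A B sq : V → V) (c0 : ℕ) : Prop where
  dens : n ^ 2 ≤ (A0 S a b).card * c0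
  Ax : ∀ p ∈ A0 S a b, p.1 ∈ PL M ∅ univ S
  Ay : ∀ p ∈ A0 S a b, p.2 ∈ PL M ∅ univ S
  Au : ∀ p ∈ A0 S a b, pp R (a + b) p.1 p.2 ∈ PL M ∅ univ S
  Pl : ∀ p : V × Fin n, PL M {p.1} Lin (thr S p) ⊆ PL M ∅ univ S
  P1 : PL M ∅ Lin S ⊆ PL M ∅ univ S
  line : ∀ p ∈ A0 S a b, sy p.1 + sy p.2 + sy (pp R (a + b) p.1 p.2) ∈ Ball (Tt M ∅ univ R S) 1
  ident : ∀ p ∈ A0 S a b, sy (pp R (sq p.1.1) p.1 p.1) + sy (pp R (A b) p.1 p.2) +
    sy (pp R (A (a + b)) p.1 (pp R (a + b) p.1 p.2)) ∈ Ball (Tt M ∅ univ R S) 1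
  Tl : ∀ p : V × Fin n, Tt M {p.1} Lin (thr R p) (thr S p) ⊆ Tt M ∅ univ R S
  Tm : ∀ p : (V × Fin n) × (V × Fin n), Tt M {p.1.1, p.2.1} Lin (thr2 R p) (thr2 S p) ⊆ Tt M ∅ univ R S
  T1 : Tt M ∅ Lin R S ⊆ Tt M ∅ univ R S
  Tmx : ∀ p ∈ A0 S a b, Tt M {p.1.1, p.2.1} Lin (thr2 R p) (thr2 S p) ⊆
    Tt M {p.1.1} Lin (thr R p.1) (thr S p.1)
  Tmy : ∀ p ∈ A0 S a b, Tt M {p.1.1, p.2.1} Lin (thr2 R p) (thr2 S p) ⊆
    Tt M {p.2.1} Lin (thr R p.2) (thr S p.2)
  Tmu : ∀ p ∈ A0 S a b, Tt M {p.1.1, p.2.1} Lin (thr2 R p) (thr2 S p) ⊆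
    Tt M {(pp R (a + b) p.1 p.2).1} Lin (thr R (pp R (a + b) p.1 p.2)) (thr S (pp R (a + b) p.1 p.2))
  Pmx : ∀ p ∈ A0 S a b, PL M {p.1.1, p.2.1} Lin (thr2 S p) ⊆ PL M {p.1.1} Lin (thr S p.1)
  Pmy : ∀ p ∈ A0 S a b, PL M {p.1.1, p.2.1} Lin (thr2 S p) ⊆ PL M {p.2.1} Lin (thr S p.2)
  Pmu : ∀ p ∈ A0 S a b, PL M {p.1.1, p.2.1} Lin (thr2 S p) ⊆
    PL M {(pp R (a + b) p.1 p.2).1} Lin (thr S (pp R (a + b) p.1 p.2))
  Mlx : ∀ p ∈ A0 S a b, ∀ t ∈ Tt M {p.1.1} Lin (thr R p.1) (thr S p.1),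
    Ml R Lin a b A B p.1 t ∈ Ball (Tt M ∅ univ R S) 1
  Mly : ∀ p ∈ A0 S a b, ∀ t ∈ Tt M {p.2.1} Lin (thr R p.2) (thr S p.2),
    Ml R Lin a b A B p.2 t ∈ Ball (Tt M ∅ univ R S) 1
  Mlu : ∀ p ∈ A0 S a b, ∀ t ∈ Tt M {(pp R (a + b) p.1 p.2).1} Lin (thr R (pp R (a + b) p.1 p.2))
    (thr S (pp R (a + b) p.1 p.2)),
    Ml R Lin a b A B (pp R (a + b) p.1 p.2) t ∈ Ball (Tt M ∅ univ R S) 1
  Mlt : ∀ p ∈ A0 S a b, ∀ q ∈ PL M {p.1.1} Lin (thr S p.1), ∃ q' ∈ PL M ∅ univ S,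
    Ml R Lin a b A B p.1 (sy q) = sy q'
  Mlty : ∀ p ∈ A0 S a b, ∀ q ∈ PL M {p.2.1} Lin (thr S p.2), ∃ q' ∈ PL M ∅ univ S,
    Ml R Lin a b A B p.2 (sy q) = sy q'
  Mltu : ∀ p ∈ A0 S a b, ∀ q ∈ PL M {(pp R (a + b) p.1 p.2).1} Lin (thr S (pp R (a + b) p.1 p.2)),
    ∃ q' ∈ PL M ∅ univ S, Ml R Lin a b A B (pp R (a + b) p.1 p.2) (sy q) = sy q'
  Msum : ∀ p ∈ A0 S a b, ∀ q ∈ PL M {p.1.1, p.2.1} Lin (thr2 S p),
    Ml R Lin a b A B p.1 (sy q) + Ml R Lin a b A B p.2 (sy q) +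
      Ml R Lin a b A B (pp R (a + b) p.1 p.2) (sy q) ∈ Ball (Tt M ∅ univ R S) 1
  yx : ∀ p ∈ A0 S a b, p.1 ∈ PL M {p.2.1} Lin (thr S p.2) ∧
    Ml R Lin a b A B p.2 (sy p.1) = sy (pp R (A b) p.1 p.2)
  xy : ∀ p ∈ A0 S a b, p.2 ∈ PL M {p.1.1} Lin (thr S p.1) ∧
    Ml R Lin a b A B p.1 (sy p.2) = sy (pp R (A b) p.1 p.2)
  ux : ∀ p ∈ A0 S a b, p.1 ∈ PL M {(pp R (a + b) p.1 p.2).1} Lin (thr S (pp R (a + b) p.1 p.2)) ∧
    Ml R Lin a b A B (pp R (a + b) p.1 p.2) (sy p.1) =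
      sy (pp R (A (a + b)) p.1 (pp R (a + b) p.1 p.2))
  P1x : ∀ p ∈ A0 S a b, p.1 ∈ PL M ∅ Lin S

variable {M : Mat V} {n : ℕ} {R S : Finset (V → Fin n)} {Lin : Finset V} {a b : V} {A B sq : V → V}

theorem thr_sub (S : Finset (V → Fin n)) (p : V × Fin n) : thr S p ⊆ S := filter_subset _ _

theorem thr2_sub (S : Finset (V → Fin n)) (p : (V × Fin n) × (V × Fin n)) : thr2 S p ⊆ S :=
  filter_subset _ _

theorem A0_dens {κ : ℝ} {c0 : ℕ} (hn : 0 < n) (hc : 1 ≤ κ * c0) (hE : Exact M R)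
    (hJ : JCOut M univ κ R S) (hab : M.rk {a, b} = 2) : n ^ 2 ≤ (A0 S a b).card * c0 := by
  classical
  have hr : 2 ≤ M.r := by rw [← hab]; exact rk_le_r M _
  have h1 : S.card ≤ (A0 S a b).card * n ^ (M.r - 2) := by
    have h2 : S ⊆ (A0 S a b).biUnion fun p => thr2 S p := by
      intro ρ hρ
      rw [mem_biUnion]
      exact ⟨((a, ρ a), (b, ρ b)), mem_image_of_mem _ hρ, mem_filter.2 ⟨hρ, rfl, rfl⟩⟩
    refine (card_le_card h2).trans (card_biUnion_le_card_mul _ _ _ fun p hp => ?_)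
    obtain ⟨σ, hσ, rfl⟩ := A0_mem hp
    have h3 := card_sub_le (exact_mono hE hJ.1) {a, b} σ
    rw [hab, sub_eq_thr2] at h3
    exact h3
  have h4 : κ * (n : ℝ) ^ M.r ≤ (S.card : ℝ) := hJ.2.1
  have h6 : κ * (n : ℝ) ^ 2 * (n : ℝ) ^ (M.r - 2) ≤ ((A0 S a b).card : ℝ) * (n : ℝ) ^ (M.r - 2) := by
    calc κ * (n : ℝ) ^ 2 * (n : ℝ) ^ (M.r - 2) = κ * (n : ℝ) ^ M.r := by
          rw [mul_assoc, ← pow_add]; congr 2; omega
      _ ≤ _ := h4
      _ ≤ _ := by exact_mod_cast h1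
  have h7 : κ * (n : ℝ) ^ 2 ≤ ((A0 S a b).card : ℝ) := le_of_mul_le_mul_right h6 (by positivity)
  have h8 : ((n : ℝ)) ^ 2 ≤ ((A0 S a b).card : ℝ) * (c0 : ℝ) := by
    calc (n : ℝ) ^ 2 = 1 * (n : ℝ) ^ 2 := by ring
      _ ≤ (κ * c0) * (n : ℝ) ^ 2 := by
          apply mul_le_mul_of_nonneg_right hc; positivity
      _ = (κ * n ^ 2) * c0 := by ring
      _ ≤ ((A0 S a b).card : ℝ) * c0 := by
          apply mul_le_mul_of_nonneg_right h7; positivity
  exact_mod_cast h8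

theorem Ml_a (p : Fin n) : Ml R Lin a b A B (a, p) = MM R Lin a A p := by
  unfold Ml
  rw [if_pos rfl]

theorem Ml_b (h : b ≠ a) (p : Fin n) : Ml R Lin a b A B (b, p) = MM R Lin b B p := by
  unfold Ml
  rw [if_neg h, if_pos rfl]

theorem Ml_u (h : a + b ≠ a) (h' : a + b ≠ b) (p : Fin n) :
    Ml R Lin a b A B (a + b, p) = MM R Lin (a + b) (fun w => A w + B w) p := by
  unfold Ml
  rw [if_neg h, if_neg h']

theorem rowOut (hK : KillAlg M Lin a b A B sq) {κ : ℝ} {c0 : ℕ} (hn : 0 < n) (hc : 1 ≤ κ * c0)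
    (hE : Exact M R) (hJ : JCOut M univ κ R S) : RowOut M R S Lin a b A B sq c0 := by
  have hSR : S ⊆ R := hJ.1
  have hka := ka_of hK.ind
  have hr3 := three_le_r hK.lin
  have hlab : a + b ∈ Lin := hK.lin.add a hK.a_mem b hK.b_mem
  have hcab : M.InCl {a, b} (a + b) := incl_add (incl_mem (by simp)) (incl_mem (by simp))
  have hAb : M.InCl {a, b} (A b) := hK.A_cl b hK.b_mem
  have hAu : M.InCl {a, a + b} (A (a + b)) := hK.A_cl _ hlab
  have hsqa : M.InCl {a, a} (sq a) := by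
    have := hK.sq_cl a hK.a_mem
    rwa [show ({a, a} : Finset V) = {a} by simp]
  have hCadd : ∀ u ∈ Lin, ∀ v ∈ Lin, A (u + v) + B (u + v) = A u + B u + (A v + B v) := by
    intro u hu v hv
    rw [hK.A_add u hu v hv, hK.B_add u hu v hv]
    abel
  have hu3 : ∀ {ρ : V → Fin n}, ρ ∈ S → ∀ {S' : Finset (V → Fin n)}, S' ⊆ R →
      sub S' {a, b} ρ ⊆ thr S' (a + b, ρ (a + b)) := by
    intro ρ hρ S' hS' σ hσ
    rw [mem_sub] at hσ
    rw [thr, mem_filter]
    refine ⟨hσ.1, hE {a, b} _ hcab σ (hS' hσ.1) ρ (hSR hρ) ?_⟩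
    intro x hx
    exact (hσ.2 x hx).symm
  refine
    { dens := A0_dens hn hc hE hJ hK.ind
      Ax := ?_, Ay := ?_, Au := ?_
      Pl := fun p => PL_mono (empty_subset _) (subset_univ _) (thr_sub S p)
      P1 := PL_mono subset_rfl (subset_univ _) subset_rfl
      line := ?_, ident := ?_
      Tl := fun p => Tt_mono (empty_subset _) (subset_univ _) (thr_sub R p) (thr_sub S p)
      Tm := fun p => Tt_mono (empty_subset _) (subset_univ _) (thr2_sub R p) (thr2_sub S p)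
      T1 := Tt_mono subset_rfl (subset_univ _) subset_rfl subset_rfl
      Tmx := ?_, Tmy := ?_, Tmu := ?_, Pmx := ?_, Pmy := ?_, Pmu := ?_
      Mlx := ?_, Mly := ?_, Mlu := ?_, Mlt := ?_, Mlty := ?_, Mltu := ?_, Msum := ?_, yx := ?_, xy := ?_, ux := ?_, P1x := ?_ }
  · intro p hp
    obtain ⟨ρ, hρ, rfl⟩ := A0_mem hp
    exact PL_mk hρ (mem_univ _) (SD_empty.2 hka.a0)
  · intro p hp
    obtain ⟨ρ, hρ, rfl⟩ := A0_mem hp
    exact PL_mk hρ (mem_univ _) (SD_empty.2 hka.b0)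
  · intro p hp
    obtain ⟨ρ, hρ, rfl⟩ := A0_mem hp
    rw [pp_eq hE hcab (hSR hρ)]
    exact PL_mk hρ (mem_univ _) (SD_empty.2 hka.ab0)
  · intro p hp
    obtain ⟨ρ, hρ, rfl⟩ := A0_mem hp
    rw [pp_eq hE hcab (hSR hρ)]
    refine gen_ball (lin_Tt (r := 1) hρ hka.a0 hka.b0 hka.ab0 (by norm_num) ?_)
    exact gen_ball ⟨ρ, hSR hρ, a, mem_univ _, b, mem_univ _, mem_univ _, hka.ind, rfl⟩
  · intro p hp
    obtain ⟨ρ, hρ, rfl⟩ := A0_mem hp
    rw [pp_eq hE hcab (hSR hρ), pp_eq hE hAb (hSR hρ), pp_eq hE hAu (hSR hρ), pp_eq hE hsqa (hSR hρ)]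
    have e1 : A (a + b) = sq a + A b := by rw [hK.A_add a hK.a_mem b hK.b_mem, hK.Aa]
    rw [e1]
    have hsa : M.InCl (insert (sq a) ∅) a := hK.sq_cl' a hK.a_mem
    have hind : M.Ind ∅ (sq a) (A b) := by
      have h1 : ¬ M.InCl {a} (A b) := out_of (τ := {a}) (mem_singleton_self _) hka.n_ab (hK.A_cl' b hK.b_mem)
      have h2 : sq a ≠ 0 := by
        intro h0
        have h3 := hK.sq_cl' a hK.a_mem
        rw [h0] at h3
        have h4 : M.rk (insert a ({0} : Finset V)) = M.rk {0} := h3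
        have h5 := M.rk_mono (show ({a} : Finset V) ⊆ insert a {0} by
          intro x; simp only [mem_singleton, mem_insert]; tauto)
        have h6 := M.rk_single a hka.a0
        have h7 := M.rk_zero
        omega
      refine ind_pair h2 fun h => h1 ?_
      have h3 : M.rk (insert (A b) (insert (sq a) ({a} : Finset V))) = M.rk (insert (sq a) ({a} : Finset V)) :=
        rk_insert_of_cl h (by intro x; simp only [mem_singleton, mem_insert]; tauto)
      have h4 : M.rk (insert (sq a) ({a} : Finset V)) = M.rk {a} := hK.sq_cl a hK.a_mem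
      have h5 : M.rk (insert (A b) ({a} : Finset V)) ≤ M.rk (insert (A b) (insert (sq a) ({a} : Finset V))) :=
        M.rk_mono (insert_subset_insert _ (subset_insert _ _))
      have h6 := M.rk_mono (subset_insert (A b) ({a} : Finset V))
      unfold Mat.InCl
      omega
    have hs0 : sq a ≠ 0 := by
      intro h0
      unfold Mat.Ind at hind
      rw [h0] at hind
      have h1 := M.rk_insert_le (A b) ∅
      have h2 := M.rk_empty
      have h3 : M.rk (insert 0 (insert (A b) (∅ : Finset V))) = M.rk (insert (A b) (∅ : Finset V)) :=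
        SD_zero M _
      omega
    have hA0 : A b ≠ 0 := by
      intro h0
      unfold Mat.Ind at hind
      rw [h0] at hind
      have h1 := M.rk_insert_le (sq a) (insert 0 (∅ : Finset V))
      have h2 := M.rk_zero
      have h3 := M.rk_empty
      have e : (insert 0 (∅ : Finset V)) = {0} := rfl
      rw [e] at hind h1
      omega
    have hsA : sq a + A b ≠ 0 := by
      intro h0
      have h1 := sum_cancel M (sq a) (A b)
      rw [h0, add_zero] at h1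
      unfold Mat.Ind at hind
      rw [← h1] at hind
      have h2 := M.rk_insert_le (sq a) ∅
      have h3 := M.rk_empty
      rw [insert_eq_of_mem (mem_insert_self _ _)] at hind
      omega
    refine gen_ball (lin_Tt (r := 1) hρ hs0 hA0 hsA (by norm_num) ?_)
    exact gen_ball ⟨ρ, hSR hρ, sq a, mem_univ _, A b, mem_univ _, mem_univ _, hind, rfl⟩
  · intro p hp
    obtain ⟨ρ, hρ, rfl⟩ := A0_mem hp
    refine Tt_mono (by intro x; simp only [mem_singleton, mem_insert]; tauto) subset_rfl ?_ ?_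
    · intro σ hσ
      rw [thr2, mem_filter] at hσ
      rw [thr, mem_filter]
      exact ⟨hσ.1, hσ.2.1⟩
    · intro σ hσ
      rw [thr2, mem_filter] at hσ
      rw [thr, mem_filter]
      exact ⟨hσ.1, hσ.2.1⟩
  · intro p hp
    obtain ⟨ρ, hρ, rfl⟩ := A0_mem hp
    refine Tt_mono (by intro x; simp only [mem_singleton, mem_insert]; tauto) subset_rfl ?_ ?_
    · intro σ hσ
      rw [thr2, mem_filter] at hσ
      rw [thr, mem_filter]
      exact ⟨hσ.1, hσ.2.2⟩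
    · intro σ hσ
      rw [thr2, mem_filter] at hσ
      rw [thr, mem_filter]
      exact ⟨hσ.1, hσ.2.2⟩
  · intro p hp
    obtain ⟨ρ, hρ, rfl⟩ := A0_mem hp
    rw [pp_eq hE hcab (hSR hρ), ← sub_eq_thr2, ← sub_eq_thr2]
    exact Tt_cl hcab (hu3 hρ subset_rfl) (hu3 hρ hSR)
  · intro p hp
    obtain ⟨ρ, hρ, rfl⟩ := A0_mem hp
    refine PL_mono (by intro x; simp only [mem_singleton, mem_insert]; tauto) subset_rfl ?_
    intro σ hσ
    rw [thr2, mem_filter] at hσ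
    rw [thr, mem_filter]
    exact ⟨hσ.1, hσ.2.1⟩
  · intro p hp
    obtain ⟨ρ, hρ, rfl⟩ := A0_mem hp
    refine PL_mono (by intro x; simp only [mem_singleton, mem_insert]; tauto) subset_rfl ?_
    intro σ hσ
    rw [thr2, mem_filter] at hσ
    rw [thr, mem_filter]
    exact ⟨hσ.1, hσ.2.2⟩
  · intro p hp
    obtain ⟨ρ, hρ, rfl⟩ := A0_mem hp
    rw [pp_eq hE hcab (hSR hρ), ← sub_eq_thr2]
    exact PL_cl hcab (hu3 hρ hSR)
  · intro p hp t ht
    obtain ⟨ρ, hρ, rfl⟩ := A0_mem hp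
    rw [Ml_a]
    rw [← sub_eq_thr, ← sub_eq_thr] at ht
    exact gen_ball (MM_Tt hE hSR hK.A_cl hK.A_cl' hK.A_add (mem_singleton_self _) ht)
  · intro p hp t ht
    obtain ⟨ρ, hρ, rfl⟩ := A0_mem hp
    rw [Ml_b hka.ab.symm]
    rw [← sub_eq_thr, ← sub_eq_thr] at ht
    exact gen_ball (MM_Tt hE hSR hK.B_cl hK.B_cl' hK.B_add (mem_singleton_self _) ht)
  · intro p hp t ht
    obtain ⟨ρ, hρ, rfl⟩ := A0_mem hp
    rw [pp_eq hE hcab (hSR hρ)] at ht ⊢
    rw [Ml_u hka.ab_a hka.ab_b]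
    rw [← sub_eq_thr, ← sub_eq_thr] at ht
    exact gen_ball (MM_Tt hE hSR hK.C_cl hK.C_cl' hCadd (mem_singleton_self _) ht)
  · intro p hp q hq
    obtain ⟨ρ, hρ, rfl⟩ := A0_mem hp
    rw [← sub_eq_thr] at hq
    obtain ⟨σ, hσ, v, hv, hv', rfl⟩ := mem_PL' hq
    rw [mem_sub] at hσ
    refine ⟨(A v, σ (A v)), PL_mk hσ.1 (mem_univ _) (SD_empty.2 (SD_ne (out_of (mem_singleton_self _) hv'
      (hK.A_cl' v hv)))), ?_⟩
    rw [Ml_a]
    exact MM_lt hE hK.A_cl hv (hSR hσ.1) (hσ.2 a (mem_singleton_self _)).symm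
  · intro p hp q hq
    obtain ⟨ρ, hρ, rfl⟩ := A0_mem hp
    rw [← sub_eq_thr] at hq
    obtain ⟨σ, hσ, v, hv, hv', rfl⟩ := mem_PL' hq
    rw [mem_sub] at hσ
    refine ⟨(B v, σ (B v)), PL_mk hσ.1 (mem_univ _) (SD_empty.2 (SD_ne (out_of (mem_singleton_self _) hv'
      (hK.B_cl' v hv)))), ?_⟩
    rw [Ml_b hka.ab.symm]
    exact MM_lt hE hK.B_cl hv (hSR hσ.1) (hσ.2 b (mem_singleton_self _)).symm
  · intro p hp q hq
    obtain ⟨ρ, hρ, rfl⟩ := A0_mem hp
    rw [pp_eq hE hcab (hSR hρ)] at hq ⊢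
    rw [← sub_eq_thr] at hq
    obtain ⟨σ, hσ, v, hv, hv', rfl⟩ := mem_PL' hq
    rw [mem_sub] at hσ
    refine ⟨(A v + B v, σ (A v + B v)), PL_mk hσ.1 (mem_univ _) (SD_empty.2 (SD_ne
      (out_of (mem_singleton_self _) hv' (hK.C_cl' v hv)))), ?_⟩
    rw [Ml_u hka.ab_a hka.ab_b]
    exact MM_lt (A := fun w => A w + B w) hE hK.C_cl hv (hSR hσ.1) (hσ.2 (a + b) (mem_singleton_self _)).symm
  · intro p hp q hq
    obtain ⟨ρ, hρ, rfl⟩ := A0_mem hp
    rw [← sub_eq_thr2] at hq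
    obtain ⟨σ, hσ, v, hv, hv', rfl⟩ := mem_PL' hq
    rw [mem_sub] at hσ
    have ha' : σ a = ρ a := (hσ.2 a (by simp)).symm
    have hb' : σ b = ρ b := (hσ.2 b (by simp)).symm
    have hu' : σ (a + b) = ρ (a + b) := hE {a, b} _ hcab σ (hSR hσ.1) ρ (hSR hρ) (by
      intro x hx
      rw [mem_insert, mem_singleton] at hx
      rcases hx with rfl | rfl
      · exact ha'
      · exact hb')
    rw [pp_eq hE hcab (hSR hρ), Ml_a, Ml_b hka.ab.symm, Ml_u hka.ab_a hka.ab_b, sy_lt,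
      MM_sum hE hK.A_cl hK.B_cl hK.C_cl hv (hSR hσ.1) ha' hb' hu']
    have hvA : A v ≠ 0 := SD_ne (out_of (by simp) hv' (hK.A_cl' v hv))
    have hvB : B v ≠ 0 := SD_ne (out_of (by simp) hv' (hK.B_cl' v hv))
    have hvC : A v + B v ≠ 0 := by
      have h1 : M.InCl (insert (A v + B v) ({a, b} : Finset V)) v := by
        have h2 : M.rk (insert v (insert (a + b) (insert (A v + B v) ({a, b} : Finset V)))) =
            M.rk (insert (a + b) (insert (A v + B v) ({a, b} : Finset V))) :=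
          rk_insert_of_cl (hK.C_cl' v hv) (by
            intro x; simp only [mem_insert, mem_singleton]; tauto)
        have h3 : M.rk (insert (a + b) (insert (A v + B v) ({a, b} : Finset V))) =
            M.rk (insert (A v + B v) ({a, b} : Finset V)) :=
          rk_insert_of_cl hcab (subset_insert _ _)
        have h4 : M.rk (insert v (insert (A v + B v) ({a, b} : Finset V))) ≤
            M.rk (insert v (insert (a + b) (insert (A v + B v) ({a, b} : Finset V)))) :=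
          M.rk_mono (insert_subset_insert _ (subset_insert _ _))
        have h5 := M.rk_mono (subset_insert v (insert (A v + B v) ({a, b} : Finset V)))
        unfold Mat.InCl
        omega
      exact SD_ne (not_incl_of hv' h1)
    exact gen_ball (lin_Tt (r := 3) hσ.1 hvA hvB hvC (by norm_num)
      (AB_ball hK.A_cl' hK.B_cl' hK.C_cl' hv hv' (hSR hσ.1) hr3))
  · intro p hp
    obtain ⟨ρ, hρ, rfl⟩ := A0_mem hp
    refine ⟨?_, ?_⟩
    · rw [← sub_eq_thr]
      exact PL_mk (mem_sub_self hρ _) hK.a_mem hka.n_ba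
    · rw [pp_eq hE hAb (hSR hρ), Ml_b hka.ab.symm, sy_lt, sy_lt, MM_lt hE hK.B_cl hK.a_mem (hSR hρ) rfl, hK.symm]
  · intro p hp
    obtain ⟨ρ, hρ, rfl⟩ := A0_mem hp
    refine ⟨?_, ?_⟩
    · rw [← sub_eq_thr]
      exact PL_mk (mem_sub_self hρ _) hK.b_mem hka.n_ab
    · rw [pp_eq hE hAb (hSR hρ), Ml_a, sy_lt, sy_lt, MM_lt hE hK.A_cl hK.b_mem (hSR hρ) rfl]
  · intro p hp
    obtain ⟨ρ, hρ, rfl⟩ := A0_mem hp
    rw [pp_eq hE hcab (hSR hρ)]
    refine ⟨?_, ?_⟩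
    · rw [← sub_eq_thr]
      exact PL_mk (mem_sub_self hρ _) hK.a_mem hka.n_ua
    · rw [pp_eq hE hAu (hSR hρ), Ml_u hka.ab_a hka.ab_b, sy_lt, sy_lt,
        MM_lt (A := fun w => A w + B w) hE hK.C_cl hK.a_mem (hSR hρ) rfl]
      have e1 : A (a + b) = A a + B a := by rw [hK.A_add a hK.a_mem b hK.b_mem, hK.symm]
      rw [e1]
  · intro p hp
    obtain ⟨ρ, hρ, rfl⟩ := A0_mem hp
    exact PL_mk hρ hK.a_mem (SD_empty.2 hka.a0)

end

end Pool.Agent.helper20.MF
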